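import Pool.Agent.helper10.BV.Defs3

/-!
# BVA-D1: bookkeeping identities for `EE` and `WW`

Proofs by helper11.
-/

open Finset ArithmeticFunction

namespace BVM

/-- `E(t) = ψ(t; q, a) - ψ(t, χ₀)/φ(q)`.

PROOF. `Finset.sum_sub_distrib`, `Finset.sum_filter`, `mul_ite`, `Finset.sum_div`. -/
theorem EE_eq (q a t : ℕ) : EE q a t = psiAP q a t - psiCop q t / q.totient := by
  classical
  unfold EE psiAP psiCop ee
  rw [Finset.sum_filter, Finset.sum_filter, Finset.sum_div, ← Finset.sum_sub_distrib]
  apply Finset.sum_congr rfl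
  intro n _
  split_ifs <;> ring

/-- `W(N) = ∑_{t < N} E(t)`.

PROOF. Induction on `N`. `W(0) = 0` (empty sum). `W(N+1) - W(N) = E(N)`: the sum over
`Icc 1 (N+1)` has the last term `e_{N+1} ((N+1) - (N+1)) = 0`, and for `n ≤ N` the difference of the
coefficients `(N+1-n) - (N-n)` is `1`; `Finset.sum_Icc_succ_top`, `Finset.sum_range_succ`. -/
theorem WW_eq_sum (q a N : ℕ) : WW q a N = ∑ t ∈ range N, EE q a t := by
  induction N with
  | zero => simp [WW]
  | succ N ih =>
    rw [Finset.sum_range_succ, ← ih]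
    unfold WW EE
    rw [Finset.sum_Icc_succ_top (by omega), sub_self, mul_zero, add_zero,
      ← Finset.sum_add_distrib]
    apply Finset.sum_congr rfl
    intro n _
    push_cast
    ring

end BVM
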