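import Pool.Agent.helper10.BV.Defs3

/-!
# BVA-D4: prime powers with a common factor with `q`
-/

open Finset ArithmeticFunction

namespace BVM

open Classical in
/-- `∑_{n ≤ t, (n,q) > 1} Λ(n) ≤ 2 log q log t`.

PROOF. `Λ(n) ≠ 0` forces `n = p^k`, `k ≥ 1`, and `(n,q) > 1` forces `p ∣ q`. So the sum is
`≤ ∑_{p ∈ q.primeFactors} ∑_{k ∈ Icc 1 (Nat.log p t)} Λ(p^k) = ∑_{p ∣ q} (Nat.log p t) log p
 ≤ ω(q) log t`, since `p^(Nat.log p t) ≤ t` (`Nat.pow_log_le_self`, `t ≥ 1`), and
`2^ω(q) ≤ ∏_{p ∣ q} p ≤ q` gives `ω(q) ≤ log q/log 2 ≤ 2 log q` (`Real.log_two_gt_d9`).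
(Map the filtered set injectively into the disjoint union, e.g. by `n ↦ n.minFac` fibres
`Finset.sum_fiberwise_of_maps_to`, each fibre is contained in the image of
`k ↦ p^k`, `k ∈ Icc 1 (Nat.log p t)`; `ArithmeticFunction.vonMangoldt_apply_pow`,
`vonMangoldt_apply_prime`.) For `t = 0` both sides are `0`. -/
theorem sum_not_coprime_le {q : ℕ} (hq : q ≠ 0) (t : ℕ) :
    ∑ n ∈ (Icc 1 t).filter (fun n => ¬ n.Coprime q), vonMangoldt n
      ≤ 2 * Real.log q * Real.log t := by
  classical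
  rcases Nat.eq_zero_or_pos t with rfl | ht
  · simp
  have hlt : 0 ≤ Real.log t := Real.log_natCast_nonneg t
  set S := (Icc 1 t).filter (fun n => ¬ n.Coprime q) with hS
  have h1 : ∑ n ∈ S, vonMangoldt n = ∑ n ∈ S.filter (fun n => IsPrimePow n), vonMangoldt n :=
    (Finset.sum_filter_of_ne (fun n _ hn => vonMangoldt_ne_zero_iff.1 hn)).symm
  have hkey : ∀ n ∈ S.filter (fun n => IsPrimePow n), ∃ p k : ℕ, p.Prime ∧ k ≠ 0 ∧ p ^ k = n ∧
      n.minFac = p ∧ p ∣ q ∧ 1 ≤ k ∧ n ≤ t := by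
    intro n hn
    rw [Finset.mem_filter, hS, Finset.mem_filter, Finset.mem_Icc] at hn
    obtain ⟨⟨⟨_, hnt⟩, hcop⟩, hpp⟩ := hn
    obtain ⟨p, k, hp, hk, hpk⟩ := (isPrimePow_nat_iff n).1 hpp
    refine ⟨p, k, hp, hk.ne', hpk, ?_, ?_, hk, hnt⟩
    · rw [← hpk]
      exact hp.pow_minFac hk.ne'
    · by_contra h
      apply hcop
      rw [← hpk]
      exact Nat.Coprime.pow_left k (hp.coprime_iff_not_dvd.2 h)
  have hmaps : ∀ n ∈ S.filter (fun n => IsPrimePow n), n.minFac ∈ q.primeFactors := by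
    intro n hn
    obtain ⟨p, k, hp, _, _, hmin, hpq, _, _⟩ := hkey n hn
    rw [hmin]
    exact Nat.mem_primeFactors.2 ⟨hp, hpq, hq⟩
  rw [h1, ← Finset.sum_fiberwise_of_maps_to hmaps]
  have hfib : ∀ p ∈ q.primeFactors,
      ∑ n ∈ (S.filter (fun n => IsPrimePow n)).filter (fun n => n.minFac = p), vonMangoldt n
        ≤ Real.log t := by
    intro p hp
    have hpp : p.Prime := (Nat.mem_primeFactors.1 hp).1
    have hlp : 0 ≤ Real.log p := Real.log_natCast_nonneg p
    have hcard : ((S.filter (fun n => IsPrimePow n)).filter (fun n => n.minFac = p)).card ≤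
        Nat.log p t := by
      have hsub : (S.filter (fun n => IsPrimePow n)).filter (fun n => n.minFac = p) ⊆
          (Icc 1 (Nat.log p t)).image (fun k => p ^ k) := by
        intro n hn
        obtain ⟨hn1, hn2⟩ := Finset.mem_filter.1 hn
        obtain ⟨p', k, _, _, hpk, hmin, _, hk, hnt⟩ := hkey n hn1
        have hpe : p' = p := by rw [← hmin, hn2]
        subst hpe
        rw [Finset.mem_image]
        refine ⟨k, Finset.mem_Icc.2 ⟨hk, ?_⟩, hpk⟩
        apply Nat.le_log_of_pow_le hpp.one_lt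
        rw [hpk]
        exact hnt
      refine (Finset.card_le_card hsub).trans (Finset.card_image_le.trans ?_)
      simp
    have hval : ∀ n ∈ (S.filter (fun n => IsPrimePow n)).filter (fun n => n.minFac = p),
        vonMangoldt n ≤ Real.log p := by
      intro n hn
      obtain ⟨hn1, hn2⟩ := Finset.mem_filter.1 hn
      obtain ⟨p', k, hp', hk0, hpk, hmin, _, _, _⟩ := hkey n hn1
      have hpe : p' = p := by rw [← hmin, hn2]
      subst hpe
      rw [← hpk, vonMangoldt_apply_pow hk0, vonMangoldt_apply_prime hp']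
    refine (Finset.sum_le_card_nsmul _ _ _ hval).trans ?_
    rw [nsmul_eq_mul]
    calc (((S.filter (fun n => IsPrimePow n)).filter (fun n => n.minFac = p)).card : ℝ)
          * Real.log p ≤ (Nat.log p t : ℝ) * Real.log p := by
          apply mul_le_mul_of_nonneg_right _ hlp
          exact_mod_cast hcard
      _ = Real.log ((p ^ Nat.log p t : ℕ) : ℝ) := by
          push_cast
          rw [Real.log_pow]
      _ ≤ Real.log t := by
          apply Real.log_le_log
          · exact_mod_cast pow_pos hpp.pos _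
          · exact_mod_cast Nat.pow_log_le_self p ht.ne'
  refine (Finset.sum_le_card_nsmul _ _ _ hfib).trans ?_
  rw [nsmul_eq_mul]
  apply mul_le_mul_of_nonneg_right _ hlt
  have h2 : 2 ^ q.primeFactors.card ≤ q := by
    calc 2 ^ q.primeFactors.card = ∏ _p ∈ q.primeFactors, 2 := by rw [Finset.prod_const]
      _ ≤ ∏ p ∈ q.primeFactors, p := by
          apply Finset.prod_le_prod
          · intro p _
            omega
          · intro p hp
            exact (Nat.mem_primeFactors.1 hp).1.two_le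
      _ ≤ q := Nat.le_of_dvd (Nat.pos_of_ne_zero hq) (Nat.prod_primeFactors_dvd q)
  have h3 : (q.primeFactors.card : ℝ) * Real.log 2 ≤ Real.log q := by
    rw [← Real.log_pow]
    apply Real.log_le_log (by positivity)
    exact_mod_cast h2
  have h4 := Real.log_two_gt_d9
  have h5 : (0 : ℝ) ≤ (q.primeFactors.card : ℝ) := by positivity
  nlinarith

/-- `|ψ(t, χ₀) - ψ(t)| ≤ 2 log q log t`.

PROOF. `ψ(t) = ∑_{n ∈ Icc 0 t} Λ(n) = ∑_{n ∈ Icc 1 t} Λ(n)` (`Chebyshev.psi_eq_sum_Icc`,
`Λ(0) = 0`), split by `Coprime` (`Finset.sum_filter_add_sum_filter_not`) and use the previous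
lemma; the difference is `≤ 0` and `≥ -(2 log q log t)`. -/
theorem abs_psiCop_sub_psi_le {q : ℕ} (hq : q ≠ 0) (t : ℕ) :
    |psiCop q t - Chebyshev.psi t| ≤ 2 * Real.log q * Real.log t := by
  classical
  have h1 : Chebyshev.psi (t : ℝ) = ∑ n ∈ Icc 1 t, vonMangoldt n := by
    unfold Chebyshev.psi
    rw [Nat.floor_natCast]
    rfl
  have h2 := Finset.sum_filter_add_sum_filter_not (Icc 1 t) (fun n => n.Coprime q)
    (fun n => vonMangoldt n)
  have h3 := sum_not_coprime_le hq t
  have h4 : 0 ≤ ∑ n ∈ (Icc 1 t).filter (fun n => ¬ n.Coprime q), vonMangoldt n :=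
    Finset.sum_nonneg (fun n _ => vonMangoldt_nonneg)
  have h5 : psiCop q t - Chebyshev.psi t =
      - ∑ n ∈ (Icc 1 t).filter (fun n => ¬ n.Coprime q), vonMangoldt n := by
    rw [h1, ← h2]
    unfold psiCop
    ring
  rw [h5, abs_neg, abs_of_nonneg h4]
  exact h3

end BVM
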