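import Pool.Agent.helper10.BV.D14
import Pool.Agent.helper10.BV.D4

/-!
# BVA-D16: pointwise bound for `θ(t; q, a)` (author: helper59)
-/

open Finset ArithmeticFunction

namespace BVM

/-- The total error `F_q`. -/
noncomputable def FF (h x : ℕ) (P : ℝ) (q : ℕ) : ℝ :=
  GG h x q + (1 / (q.totient : ℝ)) * (2 * Real.log q * Real.log x + P)
    + 2 * √(x : ℝ) * Real.log x

/-- `0 ≤ ψ(t;q,a) - θ(t;q,a) ≤ 2 √x log x` for `t ≤ x`.

PROOF. The difference is `∑_{n ≤ t, n ≡ a, n not prime} Λ(n)` (for a prime `Λ(p) = log p`), it is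
nonnegative and at most `∑_{n≤t, n not prime} Λ(n) = ψ(t) - θ(t)`
(`Chebyshev.psi_sub_theta_eq_sum_not_prime`) `≤ 2 √t log t` (`Chebyshev.psi_sub_theta_le`, `t ≥ 1`)
`≤ 2 √x log x`. For `t = 0` all sums are empty. -/
theorem psiAP_sub_thetaAP {q a x t : ℕ} (ht : t ≤ x) :
    0 ≤ psiAP q a t - thetaAP q a t ∧ psiAP q a t - thetaAP q a t ≤ 2 * √(x : ℝ) * Real.log x := by
  classical
  have hdiff : psiAP q a t - thetaAP q a t =
      ∑ n ∈ Icc 1 t, (if n ≡ a [MOD q] ∧ ¬ n.Prime then vonMangoldt n else 0) := by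
    unfold psiAP thetaAP
    rw [Finset.sum_filter, Finset.sum_filter, ← Finset.sum_sub_distrib]
    refine Finset.sum_congr rfl fun n _ => ?_
    by_cases h1 : n ≡ a [MOD q] <;> by_cases h2 : n.Prime
    · simp [h1, h2, vonMangoldt_apply_prime]
    · simp [h1, h2]
    · simp [h1, h2]
    · simp [h1, h2]
  have hpsi : Chebyshev.psi (t : ℝ) - Chebyshev.theta (t : ℝ) =
      ∑ n ∈ Icc 1 t, (if ¬ n.Prime then vonMangoldt n else 0) := by
    rw [Chebyshev.psi_sub_theta_eq_sum_not_prime, Nat.floor_natCast, Finset.sum_filter]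
    rfl
  have hnn : ∀ n : ℕ, 0 ≤ vonMangoldt n := fun n => vonMangoldt_nonneg
  refine ⟨?_, ?_⟩
  · rw [hdiff]
    refine Finset.sum_nonneg fun n _ => ?_
    split_ifs
    · exact hnn n
    · exact le_rfl
  · have h1 : psiAP q a t - thetaAP q a t ≤ Chebyshev.psi (t : ℝ) - Chebyshev.theta (t : ℝ) := by
      rw [hdiff, hpsi]
      refine Finset.sum_le_sum fun n _ => ?_
      by_cases h2 : n.Prime
      · simp [h2]
      · by_cases h3 : n ≡ a [MOD q]
        · simp [h2, h3]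
        · simp only [h2, h3, false_and, if_false, not_false_eq_true, if_true]
          exact hnn n
    refine h1.trans ?_
    rcases Nat.eq_zero_or_pos t with rfl | ht0
    · rw [hpsi]
      have : (Icc 1 0 : Finset ℕ) = ∅ := by simp
      rw [this, Finset.sum_empty]
      have := Real.log_natCast_nonneg x
      positivity
    · have ht1 : (1 : ℝ) ≤ t := by exact_mod_cast ht0
      have htx : (t : ℝ) ≤ x := by exact_mod_cast ht
      refine (Chebyshev.psi_sub_theta_le ht1).trans ?_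
      have h4 : Real.log (t : ℝ) ≤ Real.log (x : ℝ) := Real.log_le_log (by linarith) htx
      have h5 : 0 ≤ Real.log (t : ℝ) := Real.log_nonneg ht1
      have h6 : √(t : ℝ) ≤ √(x : ℝ) := Real.sqrt_le_sqrt htx
      exact mul_le_mul (mul_le_mul_of_nonneg_left h6 (by norm_num)) h4 h5 (by positivity)

/-- `|θ(t;q,a) - t/φ(q)| ≤ F_q` for all `t ≤ x`, `(a,q)=1`, if `|ψ(y) - y| ≤ P` for `y ≤ x`.

PROOF. `θ(t;q,a) = ψ(t;q,a) - (ψ-θ)`, `ψ(t;q,a) = E(t) + ψ(t,χ₀)/φ(q)` (`EE_eq`),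
`|ψ(t,χ₀) - ψ(t)| ≤ 2 log q log t ≤ 2 log q log x` (`abs_psiCop_sub_psi_le`), `|ψ(t) - t| ≤ P`,
`|E(t)| ≤ G_q` (`abs_EE_le_GG`). -/
theorem abs_thetaAP_sub_le {q a h x t : ℕ} {P : ℝ} (hq : q ≠ 0) (ha : a.Coprime q) (hh : 1 ≤ h)
    (ht : t ≤ x) (hP : ∀ y : ℕ, y ≤ x → |Chebyshev.psi y - y| ≤ P) :
    |thetaAP q a t - t / q.totient| ≤ FF h x P q := by
  have hφ : (0 : ℝ) < q.totient := by
    exact_mod_cast Nat.totient_pos.2 (Nat.pos_of_ne_zero hq)
  obtain ⟨h1, h2⟩ := psiAP_sub_thetaAP (q := q) (a := a) ht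
  have h3 := abs_EE_le_GG (a := a) hq ha hh ht
  have h4 := abs_psiCop_sub_psi_le hq t
  have h5 := hP t ht
  have h6 := EE_eq q a t
  have hlog : Real.log (t : ℝ) ≤ Real.log (x : ℝ) := by
    rcases Nat.eq_zero_or_pos t with rfl | ht0
    · simpa using Real.log_natCast_nonneg x
    · exact Real.log_le_log (by exact_mod_cast ht0) (by exact_mod_cast ht)
  have hlq : 0 ≤ Real.log (q : ℝ) := Real.log_natCast_nonneg q
  have h7 : 2 * Real.log (q : ℝ) * Real.log (t : ℝ) ≤ 2 * Real.log q * Real.log x :=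
    mul_le_mul_of_nonneg_left hlog (by positivity)
  have h8 : thetaAP q a t - t / q.totient = -(psiAP q a t - thetaAP q a t) + (EE q a t +
      (1 / (q.totient : ℝ)) * ((psiCop q t - Chebyshev.psi t) + (Chebyshev.psi t - t))) := by
    rw [h6]
    field_simp
    ring
  have h9 : |(1 / (q.totient : ℝ)) * ((psiCop q t - Chebyshev.psi t) + (Chebyshev.psi t - t))| ≤
      (1 / (q.totient : ℝ)) * (2 * Real.log q * Real.log x + P) := by
    rw [abs_mul, abs_of_pos (by positivity : (0 : ℝ) < 1 / (q.totient : ℝ))]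
    refine mul_le_mul_of_nonneg_left ?_ (by positivity)
    exact (abs_add_le _ _).trans (add_le_add (h4.trans h7) h5)
  rw [h8]
  unfold FF
  refine (abs_add_le _ _).trans ?_
  rw [abs_neg, abs_of_nonneg h1]
  have h10 := abs_add_le (EE q a t)
    ((1 / (q.totient : ℝ)) * ((psiCop q t - Chebyshev.psi t) + (Chebyshev.psi t - t)))
  linarith

end BVM
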