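import Pool.Agent.helper10.BV.D5

/-!
# BVA-D6: `T_q` in terms of primitive characters
-/

open Finset ArithmeticFunction

namespace BVM

private theorem D6_aux {q : ℕ} (p p' : Σ d : ℕ, DirichletCharacter ℂ d) (hpp : p = p')
    (h : p.1 ∣ q) (h' : p'.1 ∣ q) :
    DirichletCharacter.changeLevel h p.2 = DirichletCharacter.changeLevel h' p'.2 := by
  subst hpp
  rfl

private theorem D6_card {q : ℕ} (hq : q ≠ 0) : (nonPrin q).card ≤ q.totient := by
  classical
  haveI : NeZero q := ⟨hq⟩
  have h : (Set.univ : Set (DirichletCharacter ℂ q)).Finite := Set.toFinite _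
  have h1 : (nonPrin q).card ≤ (Finset.univ : Finset (DirichletCharacter ℂ q)).card :=
    Finset.card_le_card (fun _ _ => Finset.mem_univ _)
  have h2 : (Finset.univ : Finset (DirichletCharacter ℂ q)).card = q.totient := by
    rw [Finset.card_univ, ← Nat.card_eq_fintype_card]
    exact DirichletCharacter.card_eq_totient_of_hasEnoughRootsOfUnity ℂ q
  omega

private theorem D6_sum {q : ℕ} (hq : q ≠ 0) (u : ℝ) :
    ∑ χ ∈ nonPrin q, ‖rieszChi χ.primitiveCharacter u‖ ≤
      ∑ d ∈ q.divisors.filter (fun d => 1 < d), SS d u := by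
  classical
  haveI : NeZero q := ⟨hq⟩
  set F : DirichletCharacter ℂ q → Σ d : ℕ, DirichletCharacter ℂ d :=
    fun χ => ⟨χ.conductor, χ.primitiveCharacter⟩ with hF
  set g : (Σ d : ℕ, DirichletCharacter ℂ d) → ℝ := fun p => ‖rieszChi p.2 u‖ with hg
  have hinj : Function.Injective F := by
    intro χ χ' h
    have h1 := D6_aux (F χ) (F χ') h χ.conductor_dvd_level χ'.conductor_dvd_level
    have h2 := χ.changeLevel_primitiveCharacter
    have h3 := χ'.changeLevel_primitiveCharacter
    exact h2.symm.trans (h1.trans h3)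
  have e1 : ∑ χ ∈ nonPrin q, ‖rieszChi χ.primitiveCharacter u‖ =
      ∑ p ∈ (nonPrin q).image F, g p := by
    rw [Finset.sum_image (fun a _ b _ h => hinj h)]
  have e2 : ∑ d ∈ q.divisors.filter (fun d => 1 < d), SS d u =
      ∑ p ∈ (q.divisors.filter (fun d => 1 < d)).sigma prim, g p := by
    rw [Finset.sum_sigma]
    rfl
  rw [e1, e2]
  refine Finset.sum_le_sum_of_subset_of_nonneg ?_ fun _ _ _ => norm_nonneg _
  intro p hp
  obtain ⟨χ, hχ, rfl⟩ := Finset.mem_image.1 hp
  rw [mem_nonPrin hq] at hχ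
  have hc0 : χ.conductor ≠ 0 := χ.conductor_ne_zero
  have hc1 : χ.conductor ≠ 1 := by
    intro h
    exact hχ (DirichletCharacter.eq_one_iff_conductor_eq_one.2 h)
  rw [Finset.mem_sigma, Finset.mem_filter, Nat.mem_divisors]
  refine ⟨⟨⟨χ.conductor_dvd_level, hq⟩, ?_⟩, ?_⟩
  · show 1 < χ.conductor
    omega
  · show χ.primitiveCharacter ∈ prim χ.conductor
    rw [mem_prim hc0]
    exact χ.primitiveCharacter_isPrimitive

/-- `T_q(u) ≤ (1/φ(q)) ∑_{d ∣ q, d > 1} S_d(u) + 2 log q log u`.

PROOF. By `norm_riesz_sub_primitive_le`, `‖R_χ‖ ≤ ‖R_{χ*}‖ + 2 log q log u`; there are at most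
`φ(q)` characters (`DirichletCharacter.card_eq_totient_of_hasEnoughRootsOfUnity` as in
`card_prim_le`), so the error terms contribute at most `2 log q log u`. It remains to see
`∑_{χ ≠ 1} ‖R_{χ*}(u)‖ ≤ ∑_{d ∣ q, d>1} ∑_{ψ ∈ prim d} ‖R_ψ(u)‖`: the map
`χ ↦ ⟨χ.conductor, χ.primitiveCharacter⟩` into `Σ d, DirichletCharacter ℂ d` is injective
(`χ = changeLevel χ.conductor_dvd_level χ.primitiveCharacter`,
`DirichletCharacter.changeLevel_primitiveCharacter`; if `⟨d, ψ⟩ = ⟨d', ψ'⟩` then `cases`/`subst`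
gives equal changeLevels by proof irrelevance), maps `nonPrin q` into
`(q.divisors.filter (1 < ·)).sigma prim` (`conductor ∣ q`; conductor `≠ 0`, and conductor `= 1`
iff `χ = 1` (`DirichletCharacter.eq_one_iff_conductor_eq_one`); `mem_prim`,
`primitiveCharacter_isPrimitive`). Use `Finset.sum_sigma'` and
`Finset.sum_le_sum_of_subset_of_nonneg` for the image, `Finset.sum_image`. -/
theorem TT_le_prim {q : ℕ} (hq : q ≠ 0) {u : ℝ} (hu : 1 ≤ u) :
    TT q u ≤ (1 / (q.totient : ℝ)) * ∑ d ∈ q.divisors.filter (fun d => 1 < d), SS d u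
      + 2 * Real.log q * Real.log u := by
  have hφ : (0 : ℝ) < q.totient := by
    exact_mod_cast Nat.totient_pos.2 (Nat.pos_of_ne_zero hq)
  have hE : 0 ≤ 2 * Real.log q * Real.log u := by
    have h1 : 0 ≤ Real.log u := Real.log_nonneg hu
    have h2 : 0 ≤ Real.log q := Real.log_natCast_nonneg q
    positivity
  have h1 : ∑ χ ∈ nonPrin q, ‖rieszChi χ u‖ ≤
      ∑ d ∈ q.divisors.filter (fun d => 1 < d), SS d u +
        q.totient * (2 * Real.log q * Real.log u) := by
    calc ∑ χ ∈ nonPrin q, ‖rieszChi χ u‖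
        ≤ ∑ χ ∈ nonPrin q, (‖rieszChi χ.primitiveCharacter u‖ +
            2 * Real.log q * Real.log u) := by
          refine Finset.sum_le_sum fun χ _ => ?_
          have h := norm_riesz_sub_primitive_le hq χ hu
          have h' : ‖rieszChi χ u‖ ≤ ‖rieszChi χ.primitiveCharacter u‖ +
              ‖rieszChi χ u - rieszChi χ.primitiveCharacter u‖ := by
            have := norm_add_le (rieszChi χ.primitiveCharacter u)
              (rieszChi χ u - rieszChi χ.primitiveCharacter u)
            rwa [add_sub_cancel] at this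
          linarith
      _ = ∑ χ ∈ nonPrin q, ‖rieszChi χ.primitiveCharacter u‖ +
            (nonPrin q).card * (2 * Real.log q * Real.log u) := by
          rw [Finset.sum_add_distrib, Finset.sum_const, nsmul_eq_mul]
      _ ≤ _ := by
          refine add_le_add (D6_sum hq u) (mul_le_mul_of_nonneg_right ?_ hE)
          exact_mod_cast D6_card hq
  unfold TT
  calc (1 / (q.totient : ℝ)) * ∑ χ ∈ nonPrin q, ‖rieszChi χ u‖
      ≤ (1 / (q.totient : ℝ)) * (∑ d ∈ q.divisors.filter (fun d => 1 < d), SS d u +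
        q.totient * (2 * Real.log q * Real.log u)) :=
        mul_le_mul_of_nonneg_left h1 (by positivity)
    _ = _ := by
        field_simp

end BVM
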