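import Pool.Agent.helper10.BV.D4

/-!
# BVA-D5: passage to the primitive character
-/

open Finset ArithmeticFunction

namespace BVM

/-- `‖R_χ(u) - R_{χ*}(u)‖ ≤ 2 log q log u` (`χ*` the primitive character inducing `χ`).

PROOF. For `(n, q) = 1`: `χ*(n) = χ(n)` (`DirichletCharacter.primitiveCharacter_apply_of_isCoprime`
with the integer `n`, `Nat.isCoprime_iff_coprime`, casts `ℕ → ℤ → ZMod`). For `(n,q) > 1`:
`χ(n) = 0` (`MulChar.map_nonunit`, `ZMod.isUnit_iff_coprime`) and `‖χ*(n)‖ ≤ 1`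
(`DirichletCharacter.norm_le_one`), `0 ≤ rz ≤ 1` on `n ≤ u`. So the difference is at most
`∑_{n ≤ ⌊u⌋, (n,q) > 1} Λ(n) ≤ 2 log q log ⌊u⌋₊ ≤ 2 log q log u` (`sum_not_coprime_le`). -/
theorem norm_riesz_sub_primitive_le {q : ℕ} (hq : q ≠ 0) (χ : DirichletCharacter ℂ q) {u : ℝ}
    (hu : 1 ≤ u) :
    ‖rieszChi χ u - rieszChi χ.primitiveCharacter u‖ ≤ 2 * Real.log q * Real.log u := by
  classical
  have hrz0 : ∀ t : ℝ, 0 ≤ rz t := fun t => le_max_left _ _
  have hrz1 : ∀ t : ℝ, 0 ≤ t → rz t ≤ 1 := fun t ht => max_le zero_le_one (by linarith)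
  have hu0 : 0 < u := by linarith
  have hdiff : rieszChi χ u - rieszChi χ.primitiveCharacter u =
      ∑ n ∈ Icc 1 ⌊u⌋₊, ((vonMangoldt n : ℝ) : ℂ) *
        (χ (n : ZMod q) - χ.primitiveCharacter (n : ZMod χ.conductor)) *
        ((rz (n / u) : ℝ) : ℂ) := by
    unfold rieszChi
    rw [← Finset.sum_sub_distrib]
    refine Finset.sum_congr rfl fun n _ => ?_
    ring
  rw [hdiff]
  have hterm : ∀ n ∈ Icc 1 ⌊u⌋₊, ‖((vonMangoldt n : ℝ) : ℂ) *
        (χ (n : ZMod q) - χ.primitiveCharacter (n : ZMod χ.conductor)) *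
        ((rz (n / u) : ℝ) : ℂ)‖ ≤ if ¬ n.Coprime q then vonMangoldt n else 0 := by
    intro n _
    by_cases hn : n.Coprime q
    · have h1 : IsCoprime (n : ℤ) (q : ℤ) := Nat.isCoprime_iff_coprime.mpr hn
      have h2 := DirichletCharacter.primitiveCharacter_apply_of_isCoprime (χ := χ) h1
      have h3 : χ.primitiveCharacter (n : ZMod χ.conductor) = χ (n : ZMod q) := by
        have e1 : (((n : ℤ)) : ZMod χ.conductor) = (n : ZMod χ.conductor) := by push_cast; rfl
        have e2 : (((n : ℤ)) : ZMod q) = (n : ZMod q) := by push_cast; rfl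
        rw [e1, e2] at h2
        exact h2
      rw [h3, sub_self, mul_zero, zero_mul, norm_zero, if_neg (not_not.2 hn)]
    · rw [if_pos hn]
      have h1 : χ (n : ZMod q) = 0 := by
        apply χ.map_nonunit
        rw [ZMod.isUnit_iff_coprime]
        exact hn
      rw [h1, zero_sub, norm_mul, norm_mul, norm_neg]
      have h2 : ‖χ.primitiveCharacter (n : ZMod χ.conductor)‖ ≤ 1 :=
        DirichletCharacter.norm_le_one _ _
      have h3 : ‖((rz (n / u) : ℝ) : ℂ)‖ ≤ 1 := by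
        rw [Complex.norm_real, Real.norm_of_nonneg (hrz0 _)]
        exact hrz1 _ (by positivity)
      have h4 : ‖((vonMangoldt n : ℝ) : ℂ)‖ = vonMangoldt n := by
        rw [Complex.norm_real, Real.norm_of_nonneg vonMangoldt_nonneg]
      rw [h4]
      have hv : 0 ≤ vonMangoldt n := vonMangoldt_nonneg
      calc vonMangoldt n * ‖χ.primitiveCharacter (n : ZMod χ.conductor)‖ *
            ‖((rz (n / u) : ℝ) : ℂ)‖ ≤ vonMangoldt n * 1 * 1 := by
              apply mul_le_mul (mul_le_mul_of_nonneg_left h2 hv) h3 (norm_nonneg _)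
              linarith
        _ = vonMangoldt n := by ring
  calc ‖∑ n ∈ Icc 1 ⌊u⌋₊, ((vonMangoldt n : ℝ) : ℂ) *
        (χ (n : ZMod q) - χ.primitiveCharacter (n : ZMod χ.conductor)) *
        ((rz (n / u) : ℝ) : ℂ)‖
      ≤ ∑ n ∈ Icc 1 ⌊u⌋₊, ‖((vonMangoldt n : ℝ) : ℂ) *
        (χ (n : ZMod q) - χ.primitiveCharacter (n : ZMod χ.conductor)) *
        ((rz (n / u) : ℝ) : ℂ)‖ := norm_sum_le _ _
    _ ≤ ∑ n ∈ Icc 1 ⌊u⌋₊, (if ¬ n.Coprime q then vonMangoldt n else 0) :=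
        Finset.sum_le_sum hterm
    _ = ∑ n ∈ (Icc 1 ⌊u⌋₊).filter (fun n => ¬ n.Coprime q), vonMangoldt n := by
        rw [Finset.sum_filter]
    _ ≤ 2 * Real.log q * Real.log ⌊u⌋₊ := sum_not_coprime_le hq _
    _ ≤ 2 * Real.log q * Real.log u := by
        have hq1 : (1 : ℝ) ≤ q := by exact_mod_cast Nat.one_le_iff_ne_zero.2 hq
        have h1 : 0 ≤ 2 * Real.log q := by
          have := Real.log_nonneg hq1
          linarith
        apply mul_le_mul_of_nonneg_left _ h1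
        have h2 : 1 ≤ ⌊u⌋₊ := Nat.le_floor (by simpa using hu)
        have h3 : (0 : ℝ) < ⌊u⌋₊ := by exact_mod_cast h2
        exact Real.log_le_log h3 (Nat.floor_le hu0.le)

end BVM
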