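import Pool.Agent.helper10.BV.D6

/-!
# BVA-D7: sum of `T_q` over `q ≤ Q`
-/

open Finset ArithmeticFunction

namespace BVM

/-- `∑_{q ≤ Q} T_q(u) ≤ (∑_{m ≤ Q} 1/φ(m)) ∑_{1<d≤Q} S_d(u)/φ(d) + 2 Q log Q log u`.

PROOF. Sum `TT_le_prim` over `q ∈ Icc 1 Q`; the error terms are `≤ 2 log Q log u` each
(`log q ≤ log Q`, `log u ≥ 0`). Main term: `∑_{q≤Q} ∑_{d ∣ q, d>1} S_d/φ(q)`; write `q = d m`,
`1 < d ≤ Q`, `1 ≤ m ≤ Q/d ≤ Q`, `φ(d m) ≥ φ(d) φ(m)` (`Nat.totient_super_multiplicative`), so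
`1/φ(q) ≤ 1/φ(d) * 1/φ(m)`. (Bound it by the sum over all pairs `(d, m) ∈ Ioc 1 Q ×ˢ Icc 1 Q`: the map
`(q, d) ↦ (d, q/d)` is injective on `d ∣ q`, all terms are nonnegative; or for each fixed `d`:
`∑_{q ∈ Icc 1 Q, d ∣ q} 1/φ(q) ≤ ∑_{m ∈ Icc 1 Q} 1/(φ(d) φ(m))` after `Finset.sum_comm'`.) -/
theorem sum_TT_le_prim (Q : ℕ) {u : ℝ} (hu : 1 ≤ u) :
    ∑ q ∈ Icc 1 Q, TT q u ≤
      (∑ m ∈ Icc 1 Q, 1 / (m.totient : ℝ)) * (∑ d ∈ Ioc 1 Q, (1 / (d.totient : ℝ)) * SS d u)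
        + 2 * Q * Real.log Q * Real.log u := by
  have hlog : ∀ q ∈ Icc 1 Q, TT q u ≤
      (1 / (q.totient : ℝ)) * ∑ d ∈ (Ioc 1 Q).filter (fun d => d ∣ q), SS d u
        + 2 * Real.log Q * Real.log u := by
    intro q hq
    rw [Finset.mem_Icc] at hq
    have h1 := TT_le_prim (q := q) (by omega) hu
    have h2 : q.divisors.filter (fun d => 1 < d) = (Ioc 1 Q).filter (fun d => d ∣ q) := by
      ext d
      simp only [Finset.mem_filter, Nat.mem_divisors, Finset.mem_Ioc]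
      constructor
      · rintro ⟨⟨hd, hq0⟩, h1d⟩
        exact ⟨⟨h1d, (Nat.le_of_dvd (by omega) hd).trans hq.2⟩, hd⟩
      · rintro ⟨⟨h1d, -⟩, hd⟩
        exact ⟨⟨hd, by omega⟩, h1d⟩
    rw [h2] at h1
    have h3 : Real.log q ≤ Real.log Q :=
      Real.log_le_log (by exact_mod_cast hq.1) (by exact_mod_cast hq.2)
    have h4 : 0 ≤ Real.log u := Real.log_nonneg hu
    have h5 : 2 * Real.log q * Real.log u ≤ 2 * Real.log Q * Real.log u := by
      have := mul_le_mul_of_nonneg_right h3 h4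
      nlinarith
    linarith
  have key : ∀ d ∈ Ioc 1 Q, ∑ q ∈ (Icc 1 Q).filter (fun q => d ∣ q), 1 / (q.totient : ℝ) ≤
      (∑ m ∈ Icc 1 Q, 1 / (m.totient : ℝ)) * (1 / (d.totient : ℝ)) := by
    intro d hd
    rw [Finset.mem_Ioc] at hd
    have hsub : (Icc 1 Q).filter (fun q => d ∣ q) ⊆ (Icc 1 Q).image (fun m => d * m) := by
      intro q hq
      rw [Finset.mem_filter, Finset.mem_Icc] at hq
      obtain ⟨⟨h1, h2⟩, m, rfl⟩ := hq
      rw [Finset.mem_image]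
      refine ⟨m, ?_, rfl⟩
      rw [Finset.mem_Icc]
      constructor
      · rcases Nat.eq_zero_or_pos m with hm | hm
        · subst hm
          omega
        · exact hm
      · exact (Nat.le_mul_of_pos_left m (by omega)).trans h2
    calc ∑ q ∈ (Icc 1 Q).filter (fun q => d ∣ q), 1 / (q.totient : ℝ)
        ≤ ∑ q ∈ (Icc 1 Q).image (fun m => d * m), 1 / (q.totient : ℝ) :=
          Finset.sum_le_sum_of_subset_of_nonneg hsub fun _ _ _ => by positivity
      _ = ∑ m ∈ Icc 1 Q, 1 / ((d * m).totient : ℝ) :=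
          Finset.sum_image fun a _ b _ hab => Nat.eq_of_mul_eq_mul_left (by omega) hab
      _ ≤ ∑ m ∈ Icc 1 Q, 1 / (m.totient : ℝ) * (1 / (d.totient : ℝ)) := by
          refine Finset.sum_le_sum fun m hm => ?_
          rw [Finset.mem_Icc] at hm
          have h1 : 0 < d.totient := Nat.totient_pos.2 (by omega)
          have h2 : 0 < m.totient := Nat.totient_pos.2 (by omega)
          have h3 := Nat.totient_super_multiplicative d m
          rw [one_div_mul_one_div]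
          refine one_div_le_one_div_of_le (by positivity) ?_
          rw [mul_comm]
          exact_mod_cast h3
      _ = _ := by rw [Finset.sum_mul]
  have hmain : ∑ q ∈ Icc 1 Q, (1 / (q.totient : ℝ)) *
      ∑ d ∈ (Ioc 1 Q).filter (fun d => d ∣ q), SS d u ≤
      (∑ m ∈ Icc 1 Q, 1 / (m.totient : ℝ)) * (∑ d ∈ Ioc 1 Q, (1 / (d.totient : ℝ)) * SS d u) := by
    have h1 : ∑ q ∈ Icc 1 Q, (1 / (q.totient : ℝ)) *
        ∑ d ∈ (Ioc 1 Q).filter (fun d => d ∣ q), SS d u =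
        ∑ d ∈ Ioc 1 Q, (∑ q ∈ (Icc 1 Q).filter (fun q => d ∣ q), 1 / (q.totient : ℝ)) *
          SS d u := by
      simp only [Finset.mul_sum, Finset.sum_mul, Finset.sum_filter]
      rw [Finset.sum_comm]
      refine Finset.sum_congr rfl fun d _ => Finset.sum_congr rfl fun q _ => ?_
      split_ifs <;> ring
    rw [h1, Finset.mul_sum]
    refine Finset.sum_le_sum fun d hd => ?_
    rw [← mul_assoc]
    exact mul_le_mul_of_nonneg_right (key d hd) (SS_nonneg d u)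
  calc ∑ q ∈ Icc 1 Q, TT q u
      ≤ ∑ q ∈ Icc 1 Q, ((1 / (q.totient : ℝ)) *
          ∑ d ∈ (Ioc 1 Q).filter (fun d => d ∣ q), SS d u + 2 * Real.log Q * Real.log u) :=
        Finset.sum_le_sum hlog
    _ = ∑ q ∈ Icc 1 Q, (1 / (q.totient : ℝ)) *
          ∑ d ∈ (Ioc 1 Q).filter (fun d => d ∣ q), SS d u +
          2 * Q * Real.log Q * Real.log u := by
        rw [Finset.sum_add_distrib, Finset.sum_const, Nat.card_Icc, nsmul_eq_mul,
          Nat.add_sub_cancel]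
        ring
    _ ≤ _ := add_le_add_left hmain _

end BVM
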