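import Pool.Agent.helper10.BV.Defs3

/-!
# BVA-D8: `∑ 1/φ(m)`
-/

open Finset ArithmeticFunction

namespace BVM

private theorem d8_prod (s : Finset ℕ) (hs : ∀ p ∈ s, 2 ≤ p) :
    ∏ p ∈ s, ((p : ℝ) / ((p : ℝ) - 1)) ≤ (s.card : ℝ) + 1 := by
  induction s using Finset.induction_on_max with
  | empty => simp
  | insert a s hmax ih =>
    have ha : a ∉ s := fun h => lt_irrefl _ (hmax a h)
    rw [Finset.prod_insert ha, Finset.card_insert_of_notMem ha]
    have h2a : 2 ≤ a := hs a (Finset.mem_insert_self _ _)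
    have ih' := ih (fun p hp => hs p (Finset.mem_insert_of_mem hp))
    have hsub : s ⊆ Finset.Ico 2 a := by
      intro p hp
      rw [Finset.mem_Ico]
      exact ⟨hs p (Finset.mem_insert_of_mem hp), hmax p hp⟩
    have hcard : s.card ≤ a - 2 := by
      have := Finset.card_le_card hsub
      rwa [Nat.card_Ico] at this
    have hcard' : (s.card : ℝ) + 2 ≤ a := by
      have : s.card + 2 ≤ a := by omega
      exact_mod_cast this
    have ha1 : (0 : ℝ) < (a : ℝ) - 1 := by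
      have : (0 : ℝ) ≤ s.card := Nat.cast_nonneg _
      linarith
    have hc0 : (0 : ℝ) ≤ s.card := Nat.cast_nonneg _
    calc (a : ℝ) / ((a : ℝ) - 1) * ∏ p ∈ s, ((p : ℝ) / ((p : ℝ) - 1))
        ≤ (a : ℝ) / ((a : ℝ) - 1) * ((s.card : ℝ) + 1) := by
          apply mul_le_mul_of_nonneg_left ih'
          positivity
      _ ≤ (s.card : ℝ) + 1 + 1 := by
          rw [div_mul_eq_mul_div, div_le_iff₀ ha1]
          nlinarith
      _ = ((s.card + 1 : ℕ) : ℝ) + 1 := by push_cast; ring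

/-- `m/φ(m) ≤ 1 + 2 log m` for `m ≥ 1`.

PROOF. `φ(m) = m ∏_{p ∣ m} (1 - 1/p)` (`Nat.totient_eq_mul_prod_factors`), so
`m/φ(m) = ∏_{p ∣ m} p/(p-1)`. If `p_1 < ... < p_w` are the prime factors then `p_i ≥ i + 1`, so the
product is `≤ ∏_{i ≤ w} (i+1)/i = w + 1`. (General lemma, by induction on the finset with the maximal
element removed `Finset.induction_on_max`: for a finset `s` of naturals `≥ 2`,
`∏_{p∈s} (p/(p-1)) ≤ s.card + 1`, since the maximum is `≥ card + 1`.) And `2^w ≤ ∏ p ≤ m` gives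
`w ≤ log m/log 2 ≤ 2 log m`. -/
theorem div_totient_le {m : ℕ} (hm : m ≠ 0) : (m : ℝ) / m.totient ≤ 1 + 2 * Real.log m := by
  have hm0 : (0 : ℝ) < m := by exact_mod_cast Nat.pos_of_ne_zero hm
  have hphi0 : (0 : ℝ) < m.totient := by
    exact_mod_cast Nat.totient_pos.mpr (Nat.pos_of_ne_zero hm)
  have hpr : ∀ p ∈ m.primeFactors, 2 ≤ p := fun p hp => (Nat.prime_of_mem_primeFactors hp).two_le
  have h1 : (m.totient : ℝ) = m * ∏ p ∈ m.primeFactors, (1 - (p : ℝ)⁻¹) := by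
    have h := Nat.totient_eq_mul_prod_factors m
    have h' : ((m.totient : ℚ) : ℝ) = ((m * ∏ p ∈ m.primeFactors, (1 - (p : ℚ)⁻¹) : ℚ) : ℝ) := by
      rw [h]
    push_cast at h'
    exact h'
  have h2 : (m : ℝ) / m.totient = ∏ p ∈ m.primeFactors, ((p : ℝ) / ((p : ℝ) - 1)) := by
    have h3 : (∏ p ∈ m.primeFactors, (1 - (p : ℝ)⁻¹)) *
        (∏ p ∈ m.primeFactors, ((p : ℝ) / ((p : ℝ) - 1))) = 1 := by
      rw [← Finset.prod_mul_distrib]
      apply Finset.prod_eq_one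
      intro p hp
      have hp2 : (2 : ℝ) ≤ p := by exact_mod_cast hpr p hp
      have hp0 : (p : ℝ) ≠ 0 := by linarith
      have hp1 : (p : ℝ) - 1 ≠ 0 := by
        intro h
        linarith
      field_simp
    rw [div_eq_iff hphi0.ne', h1]
    calc (m : ℝ) = m * ((∏ p ∈ m.primeFactors, (1 - (p : ℝ)⁻¹)) *
        (∏ p ∈ m.primeFactors, ((p : ℝ) / ((p : ℝ) - 1)))) := by rw [h3, mul_one]
      _ = _ := by ring
  rw [h2]
  have h4 := d8_prod m.primeFactors hpr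
  have h5 : (2 : ℝ) ^ m.primeFactors.card ≤ m := by
    have h6 : ∏ _p ∈ m.primeFactors, (2 : ℕ) ≤ ∏ p ∈ m.primeFactors, p :=
      Finset.prod_le_prod (fun _ _ => by norm_num) (fun p hp => hpr p hp)
    rw [Finset.prod_const] at h6
    have h7 : ∏ p ∈ m.primeFactors, p ≤ m :=
      Nat.le_of_dvd (Nat.pos_of_ne_zero hm) (Nat.prod_primeFactors_dvd m)
    exact_mod_cast h6.trans h7
  have h8 : (m.primeFactors.card : ℝ) * Real.log 2 ≤ Real.log m := by
    have := Real.log_le_log (by positivity) h5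
    rwa [Real.log_pow] at this
  have h9 : (1 / 2 : ℝ) ≤ Real.log 2 := by
    have := Real.log_two_gt_d9
    linarith
  have h10 : (0 : ℝ) ≤ m.primeFactors.card := Nat.cast_nonneg _
  nlinarith

/-- `∑_{m ≤ Q} 1/φ(m) ≤ 2 (1 + log Q)^2`.

PROOF. `1/φ(m) = (1/m) (m/φ(m)) ≤ (1/m) (1 + 2 log Q)`, and `∑_{m≤Q} 1/m ≤ 1 + log Q`
(`harmonic_le_one_add_log`), `(1 + 2 L)(1 + L) ≤ 2 (1+L)^2`. For `Q = 0` trivial. -/
theorem sum_inv_totient_le (Q : ℕ) :
    ∑ m ∈ Icc 1 Q, 1 / (m.totient : ℝ) ≤ 2 * (1 + Real.log Q) ^ 2 := by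
  have hL : (0 : ℝ) ≤ Real.log Q := Real.log_natCast_nonneg Q
  have h1 : ∀ m ∈ Icc 1 Q, 1 / (m.totient : ℝ) ≤ (m : ℝ)⁻¹ * (1 + 2 * Real.log Q) := by
    intro m hm
    rw [Finset.mem_Icc] at hm
    have hm0 : (0 : ℝ) < m := by exact_mod_cast hm.1
    have h2 := div_totient_le (m := m) (by omega)
    have h3 : Real.log m ≤ Real.log Q := Real.log_le_log hm0 (by exact_mod_cast hm.2)
    calc 1 / (m.totient : ℝ) = (m : ℝ)⁻¹ * ((m : ℝ) / m.totient) := by
          field_simp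
      _ ≤ (m : ℝ)⁻¹ * (1 + 2 * Real.log Q) := by
          apply mul_le_mul_of_nonneg_left _ (by positivity)
          linarith
  have h2 : ∑ m ∈ Icc 1 Q, (m : ℝ)⁻¹ ≤ 1 + Real.log Q := by
    have h := harmonic_le_one_add_log Q
    rw [harmonic_eq_sum_Icc] at h
    push_cast at h
    exact h
  calc ∑ m ∈ Icc 1 Q, 1 / (m.totient : ℝ)
      ≤ ∑ m ∈ Icc 1 Q, (m : ℝ)⁻¹ * (1 + 2 * Real.log Q) := Finset.sum_le_sum h1
    _ = (∑ m ∈ Icc 1 Q, (m : ℝ)⁻¹) * (1 + 2 * Real.log Q) := by rw [Finset.sum_mul]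
    _ ≤ (1 + Real.log Q) * (1 + 2 * Real.log Q) := by
        apply mul_le_mul_of_nonneg_right h2
        linarith
    _ ≤ 2 * (1 + Real.log Q) ^ 2 := by nlinarith

end BVM
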