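import Pool.Agent.helper10.BV.Defs3

/-!
# BVA-D11: powers of the logarithm against powers of `x`
-/

open Finset ArithmeticFunction

namespace BVM

/-- `1 ≤ log x` for `x ≥ 3`. PROOF. `Real.exp_one_lt_d9`/`exp_one_lt_three`. -/
theorem one_le_log {x : ℝ} (hx : 3 ≤ x) : 1 ≤ Real.log x := by
  have h1 : Real.exp 1 ≤ x := by
    have := Real.exp_one_lt_d9
    linarith
  rw [Real.le_log_iff_exp_le (by linarith)]
  exact h1

/-- `(log x)^m x^θ ≤ C x` for `θ < 1`.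

PROOF. Let `ε = (1 - θ)/(m + 1) > 0`. `log x ≤ x^ε/ε` (`Real.log_le_rpow_div`), so
`(log x)^m ≤ x^(m ε)/ε^m` (`log x ≥ 0`), and `x^(m ε + θ) ≤ x^1` because
`m ε + θ ≤ 1` and `x ≥ 1`. `C = (1/ε)^m`. -/
theorem exists_log_pow_mul_rpow_le (m : ℕ) {θ : ℝ} (hθ : θ < 1) :
    ∃ C : ℝ, 0 ≤ C ∧ ∀ x : ℝ, 3 ≤ x → Real.log x ^ m * x ^ θ ≤ C * x := by
  set ε : ℝ := (1 - θ) / (m + 1) with hε
  have hε0 : 0 < ε := div_pos (by linarith) (by positivity)
  refine ⟨(1 / ε) ^ m, by positivity, fun x hx => ?_⟩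
  have hx0 : 0 < x := by linarith
  have hlog0 : 0 ≤ Real.log x := by linarith [one_le_log hx]
  have h1 : Real.log x ≤ x ^ ε / ε := Real.log_le_rpow_div hx0.le hε0
  have h2 : Real.log x ^ m ≤ (x ^ ε / ε) ^ m := pow_le_pow_left₀ hlog0 h1 m
  have h3 : (x ^ ε / ε) ^ m = (1 / ε) ^ m * x ^ (m * ε) := by
    rw [div_eq_mul_one_div, mul_pow, ← Real.rpow_natCast (x ^ ε) m, ← Real.rpow_mul hx0.le,
      mul_comm (ε) (m : ℝ), mul_comm]
  have h4 : (m : ℝ) * ε + θ ≤ 1 := by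
    have : (m : ℝ) * ε ≤ 1 - θ := by
      have h5 : ((m : ℝ) + 1) * ε = 1 - θ := by
        rw [hε]; field_simp
      nlinarith
    linarith
  calc Real.log x ^ m * x ^ θ ≤ ((1 / ε) ^ m * x ^ (m * ε)) * x ^ θ := by
        rw [← h3]
        exact mul_le_mul_of_nonneg_right h2 (by positivity)
    _ = (1 / ε) ^ m * x ^ (m * ε + θ) := by
        rw [mul_assoc, ← Real.rpow_add hx0]
    _ ≤ (1 / ε) ^ m * x ^ (1 : ℝ) := by
        apply mul_le_mul_of_nonneg_left _ (by positivity)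
        exact Real.rpow_le_rpow_of_exponent_le (by linarith) h4
    _ = (1 / ε) ^ m * x := by rw [Real.rpow_one]

/-- The three consequences used later, with `L = log x`:
`L^k x^θ ≤ C x / L^A`.

PROOF. Apply the previous lemma with `m = k + A` and divide by `L^A > 0`. -/
theorem exists_log_pow_mul_rpow_le' (k A : ℕ) {θ : ℝ} (hθ : θ < 1) :
    ∃ C : ℝ, 0 ≤ C ∧ ∀ x : ℝ, 3 ≤ x →
      Real.log x ^ k * x ^ θ ≤ C * x / Real.log x ^ A := by
  obtain ⟨C, hC0, hC⟩ := exists_log_pow_mul_rpow_le (k + A) hθ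
  refine ⟨C, hC0, fun x hx => ?_⟩
  have hlog : 0 < Real.log x := by linarith [one_le_log hx]
  rw [le_div_iff₀ (pow_pos hlog A)]
  calc Real.log x ^ k * x ^ θ * Real.log x ^ A = Real.log x ^ (k + A) * x ^ θ := by
        rw [pow_add]; ring
    _ ≤ C * x := hC x hx

end BVM
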