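import Pool.Agent.helper10.BV.D18
import Pool.Agent.helper24.BV.ExistsGood
import Pool.Agent.helper24.BV.SW
import Pool.Agent.helper24.BV.PNTerr
import Pool.Agent.helper73.BV.Dyadic

/-!
# Bombieri-Vinogradov at arbitrarily large scales
-/

namespace BVM

theorem swBound : SWBound := SW

theorem pntErr : PntErr := pnt_err

theorem dyadicBound : DyadicBound := bvDyadic

/-- Bombieri-Vinogradov at arbitrarily large scales. -/
theorem bvInput : BVInput :=
  bvInput_of dyadicBound swBound pntErr (fun B x₀ => by
    obtain ⟨x, h1, h2⟩ := exists_good B x₀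
    exact ⟨x, h1, h2⟩)

end BVM
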