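import Pool.Agent.helper10.BV.D3

/-!
# BVA-D10: small conductors (proofs: helper41)
-/

open Finset ArithmeticFunction

namespace BVM

/-- Small conductors through Siegel-Walfisz at the scale `x`.

PROOF. For `1 < d ≤ D1` and `χ ∈ prim d` (`mem_prim`): `χ.IsPrimitive`, and `χ ≠ 1` because the
conductor of `1` is `1 ≠ d` (`DirichletCharacter.conductor_one`, `isPrimitive_def`). So
`‖R_χ(u)‖ ≤ K` by `norm_rieszChi_le` (`y ≤ u ≤ x`), `SS d u ≤ φ(d) K` (`card_prim_le`), and each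
term `(1/φ(d)) SS d u ≤ K`; there are at most `D1` terms. (`K ≥ 0` if there is any term; if the sum
is empty the right side is `≥ 0` by `hK`.) -/
theorem sum_small_le {x u K : ℝ} {D1 : ℕ} (hu : 0 < u) (hux : u ≤ x) (hK : 0 ≤ K)
    (H : ∀ q : ℕ, 1 ≤ q → q ≤ D1 → ∀ χ : DirichletCharacter ℂ q, χ.IsPrimitive → χ ≠ 1 →
      ∀ y : ℕ, (y : ℝ) ≤ x → ‖psiChi χ y‖ ≤ K) :
    ∑ d ∈ Ioc 1 D1, (1 / (d.totient : ℝ)) * SS d u ≤ D1 * K := by
  have hterm : ∀ d ∈ Ioc 1 D1, (1 / (d.totient : ℝ)) * SS d u ≤ K := by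
    intro d hd
    rw [Finset.mem_Ioc] at hd
    have hd0 : d ≠ 0 := by omega
    have htot : (0 : ℝ) < (d.totient : ℝ) := by
      exact_mod_cast Nat.totient_pos.mpr (by omega)
    have h1 : SS d u ≤ (d.totient : ℝ) * K := by
      unfold SS
      have h2 : ∀ χ ∈ prim d, ‖rieszChi χ u‖ ≤ K := by
        intro χ hχ
        rw [mem_prim hd0] at hχ
        have hne : χ ≠ 1 := by
          intro h3
          have hnz : NeZero d := ⟨hd0⟩
          rw [h3, DirichletCharacter.isPrimitive_def,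
            DirichletCharacter.conductor_one] at hχ
          omega
        exact norm_rieszChi_le χ hu fun y hy =>
          H d (by omega) hd.2 χ hχ hne y (hy.trans hux)
      calc ∑ χ ∈ prim d, ‖rieszChi χ u‖ ≤ ∑ _χ ∈ prim d, K := Finset.sum_le_sum h2
        _ = ((prim d).card : ℝ) * K := by rw [Finset.sum_const, nsmul_eq_mul]
        _ ≤ (d.totient : ℝ) * K := by
          refine mul_le_mul_of_nonneg_right ?_ hK
          exact_mod_cast card_prim_le hd0
    calc (1 / (d.totient : ℝ)) * SS d u ≤ (1 / (d.totient : ℝ)) * ((d.totient : ℝ) * K) :=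
          mul_le_mul_of_nonneg_left h1 (by positivity)
      _ = K := by
        field_simp
  calc ∑ d ∈ Ioc 1 D1, (1 / (d.totient : ℝ)) * SS d u ≤ ∑ _d ∈ Ioc 1 D1, K :=
        Finset.sum_le_sum hterm
    _ = ((D1 - 1 : ℕ) : ℝ) * K := by
      rw [Finset.sum_const, nsmul_eq_mul, Nat.card_Ioc]
    _ ≤ (D1 : ℝ) * K := by
      refine mul_le_mul_of_nonneg_right ?_ hK
      exact_mod_cast Nat.sub_le D1 1

end BVM
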