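import Pool.Agent.helper10.BV.Defs3

/-!
# BVA-D9: dyadic summation (proof: helper51)
-/

open Finset ArithmeticFunction

namespace BVM

/-- From the dyadic bound at the scale `x` to `D₁ < q ≤ Q`.

PROOF. If `Q = D1` the left side is `0`. Otherwise let `J` be minimal with `Q ≤ 2^J D1` (`J ≥ 1`).
`Ioc D1 Q ⊆ ⋃_{i<J} Ioc (2^i D1) (2^(i+1) D1)` (terms nonnegative). For `i < J`:
`D = 2^i D1 < Q ≤ √x`, `1 ≤ D`. In the block `q > D`, so `1/φ(q) ≤ (1/D) (q/φ(q))`, and the block is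
`≤ (1/D) C L^6 (x + D x^(19/20) + D² √x) = C L^6 (x/D + x^(19/20) + D √x)`, `L = log x`.
Sum over `i < J`: `∑ x/(2^i D1) ≤ 2x/D1`; `J x^(19/20)`; `√x ∑_{i<J} 2^i D1 ≤ √x 2^J D1 ≤ 2 Q √x`
(`2^(J-1) D1 < Q`). And `2^(J-1) ≤ 2^(J-1) D1 < Q ≤ √x` gives `J ≤ 1 + L/(2 log 2) ≤ 2 L`
(`L ≥ log 3 ≥ 1.09`, `log 2 ≥ 0.69`). Total `≤ C L^6 (2x/D1 + 2 L x^(19/20) + 2 Q √x)
≤ 2 C L^7 (x/D1 + x^(19/20) + Q √x)` since `L ≥ 1`. (An induction on `J` for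
`∑_{q ∈ Ioc D1 (min Q (2^J D1))}` may be more convenient than the union.) -/
theorem dyadic_sum {C x u : ℝ} (hx : 3 ≤ x) (hC : 0 ≤ C)
    (H : ∀ D : ℕ, 1 ≤ D → (D : ℝ) ≤ √x →
      ∑ q ∈ Ioc D (2 * D), ∑ χ ∈ prim q, ((q : ℝ) / q.totient) * ‖rieszChi χ u‖
        ≤ C * Real.log x ^ 6 * (x + D * x ^ (19 / 20 : ℝ) + (D : ℝ) ^ 2 * √x))
    {D1 Q : ℕ} (h1 : 1 ≤ D1) (h2 : D1 ≤ Q) (h3 : (Q : ℝ) ≤ √x) :
    ∑ q ∈ Ioc D1 Q, (1 / (q.totient : ℝ)) * SS q u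
      ≤ 2 * C * Real.log x ^ 7 * (x / D1 + x ^ (19 / 20 : ℝ) + Q * √x) := by
  classical
  set L : ℝ := Real.log x with hL
  set Y : ℝ := x ^ (19 / 20 : ℝ) with hY
  have hx0 : 0 < x := by linarith
  have hY0 : 0 ≤ Y := Real.rpow_nonneg hx0.le _
  have hL1 : 1 ≤ L := by
    rw [hL, Real.le_log_iff_exp_le hx0]
    have := Real.exp_one_lt_d9
    linarith
  have hD1 : (1 : ℝ) ≤ D1 := by exact_mod_cast h1
  have hD0 : (0 : ℝ) < D1 := by linarith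
  have hs0 : 0 ≤ √x := Real.sqrt_nonneg x
  have hf0 : ∀ q : ℕ, 0 ≤ (1 / (q.totient : ℝ)) * SS q u := fun q =>
    mul_nonneg (by positivity) (SS_nonneg q u)
  rcases h2.eq_or_lt with heq | hlt
  · rw [heq, Finset.Ioc_self, Finset.sum_empty]
    positivity
  -- the least `J`
  have hex : ∃ J : ℕ, Q ≤ 2 ^ J * D1 := by
    refine ⟨Q, ?_⟩
    have h4 : Q ≤ 2 ^ Q := Nat.lt_two_pow_self.le
    calc Q ≤ 2 ^ Q * 1 := by rw [mul_one]; exact h4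
      _ ≤ 2 ^ Q * D1 := Nat.mul_le_mul_left _ h1
  obtain ⟨J, hJ, hmin⟩ : ∃ J : ℕ, Q ≤ 2 ^ J * D1 ∧ ∀ i < J, 2 ^ i * D1 < Q :=
    ⟨Nat.find hex, Nat.find_spec hex, fun i hi => not_le.1 (Nat.find_min hex hi)⟩
  have hJ1 : 1 ≤ J := by
    rcases Nat.eq_zero_or_pos J with h | h
    · exfalso
      rw [h, pow_zero, one_mul] at hJ
      omega
    · exact h
  -- one block
  have hblock : ∀ i < J, ∑ q ∈ Ioc (2 ^ i * D1) (2 ^ (i + 1) * D1), (1 / (q.totient : ℝ)) * SS q u ≤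
      C * L ^ 6 * (x / ((2 : ℝ) ^ i * D1) + Y + ((2 : ℝ) ^ i * D1) * √x) := by
    intro i hi
    set D : ℕ := 2 ^ i * D1 with hD
    have hDc : (D : ℝ) = (2 : ℝ) ^ i * D1 := by rw [hD]; push_cast; ring
    have hDpos : 1 ≤ D := Nat.succ_le_of_lt (Nat.mul_pos (pow_pos (by norm_num) i) h1)
    have hDr : (0 : ℝ) < D := by exact_mod_cast hDpos
    have hDs : (D : ℝ) ≤ √x := by
      have h5 : (D : ℝ) ≤ Q := by exact_mod_cast (hmin i hi).le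
      exact h5.trans h3
    have h2D : 2 ^ (i + 1) * D1 = 2 * D := by rw [hD, pow_succ]; ring
    rw [h2D, ← hDc]
    have h6 := H D hDpos hDs
    have h7 : ∑ q ∈ Ioc D (2 * D), (1 / (q.totient : ℝ)) * SS q u ≤
        (1 / (D : ℝ)) * ∑ q ∈ Ioc D (2 * D), ∑ χ ∈ prim q, ((q : ℝ) / q.totient) * ‖rieszChi χ u‖ := by
      rw [Finset.mul_sum]
      refine Finset.sum_le_sum fun q hq => ?_
      have hq' : (D : ℝ) ≤ q := by exact_mod_cast (Finset.mem_Ioc.1 hq).1.le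
      rw [← Finset.mul_sum]
      have e1 : (1 / (D : ℝ)) * (((q : ℝ) / q.totient) * ∑ χ ∈ prim q, ‖rieszChi χ u‖) =
          ((q : ℝ) / D) * ((1 / (q.totient : ℝ)) * SS q u) := by
        unfold SS; ring
      rw [e1]
      refine le_mul_of_one_le_left (hf0 q) ?_
      rw [one_le_div hDr]
      exact hq'
    refine h7.trans ?_
    have h8 : (1 / (D : ℝ)) * ∑ q ∈ Ioc D (2 * D), ∑ χ ∈ prim q,
        ((q : ℝ) / q.totient) * ‖rieszChi χ u‖ ≤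
        (1 / (D : ℝ)) * (C * L ^ 6 * (x + D * Y + (D : ℝ) ^ 2 * √x)) :=
      mul_le_mul_of_nonneg_left h6 (by positivity)
    refine h8.trans (le_of_eq ?_)
    field_simp
  -- induction
  have hind : ∀ j, j ≤ J → ∑ q ∈ Ioc D1 (2 ^ j * D1), (1 / (q.totient : ℝ)) * SS q u ≤
      C * L ^ 6 * (x / D1 * (2 - 2 / (2 : ℝ) ^ j) + j * Y + (((2 : ℝ) ^ j - 1) * D1) * √x) := by
    intro j
    induction j with
    | zero =>
      intro _
      simp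
    | succ j ih =>
      intro hj
      have h9 := ih (by omega)
      have h10 := hblock j (by omega)
      have hle1 : D1 ≤ 2 ^ j * D1 := Nat.le_mul_of_pos_left _ (pow_pos (by norm_num) j)
      have hle2 : 2 ^ j * D1 ≤ 2 ^ (j + 1) * D1 :=
        Nat.mul_le_mul_right _ (Nat.pow_le_pow_right (by norm_num) (Nat.le_succ j))
      rw [← Finset.sum_Ioc_consecutive _ hle1 hle2]
      refine (add_le_add h9 h10).trans (le_of_eq ?_)
      have h2j : (2 : ℝ) ^ j ≠ 0 := by positivity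
      rw [pow_succ]
      push_cast
      field_simp
      ring
  have hsub : ∑ q ∈ Ioc D1 Q, (1 / (q.totient : ℝ)) * SS q u ≤
      ∑ q ∈ Ioc D1 (2 ^ J * D1), (1 / (q.totient : ℝ)) * SS q u :=
    Finset.sum_le_sum_of_subset_of_nonneg (Finset.Ioc_subset_Ioc_right hJ) fun q _ _ => hf0 q
  refine (hsub.trans (hind J le_rfl)).trans ?_
  -- the size of `J`
  obtain ⟨K, rfl⟩ : ∃ K, J = K + 1 := ⟨J - 1, by omega⟩
  have hK := hmin K (Nat.lt_succ_self K)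
  have hKr : (2 : ℝ) ^ K * D1 ≤ Q := by
    have : ((2 ^ K * D1 : ℕ) : ℝ) ≤ Q := by exact_mod_cast hK.le
    simpa using this
  have hKs : (2 : ℝ) ^ K ≤ √x := by
    have h11 : (2 : ℝ) ^ K ≤ 2 ^ K * D1 := le_mul_of_one_le_right (by positivity) hD1
    linarith
  have hKL : (K : ℝ) ≤ L := by
    have h12 : Real.log ((2 : ℝ) ^ K) ≤ Real.log (√x) := Real.log_le_log (by positivity) hKs
    rw [Real.log_pow, Real.log_sqrt hx0.le, ← hL] at h12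
    have h13 := Real.log_two_gt_d9
    have h14 : (0 : ℝ) ≤ K := Nat.cast_nonneg K
    nlinarith
  have hJL : ((K + 1 : ℕ) : ℝ) ≤ 2 * L := by
    push_cast
    linarith
  have hA : x / D1 * (2 - 2 / (2 : ℝ) ^ (K + 1)) ≤ 2 * L * (x / D1) := by
    have h15 : 0 ≤ x / D1 := by positivity
    have h16 : 2 - 2 / (2 : ℝ) ^ (K + 1) ≤ 2 * L := by
      have : 0 ≤ 2 / (2 : ℝ) ^ (K + 1) := by positivity
      linarith
    rw [mul_comm (2 * L)]
    exact mul_le_mul_of_nonneg_left h16 h15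
  have hB : ((K + 1 : ℕ) : ℝ) * Y ≤ 2 * L * Y := mul_le_mul_of_nonneg_right hJL hY0
  have hCc : (((2 : ℝ) ^ (K + 1) - 1) * D1) * √x ≤ 2 * L * (Q * √x) := by
    have h17 : ((2 : ℝ) ^ (K + 1) - 1) * D1 ≤ 2 * L * Q := by
      have hQ0 : (0 : ℝ) ≤ Q := Nat.cast_nonneg Q
      have h18 : ((2 : ℝ) ^ (K + 1) - 1) * D1 ≤ 2 * Q := by
        rw [pow_succ]
        nlinarith
      nlinarith
    calc (((2 : ℝ) ^ (K + 1) - 1) * D1) * √x ≤ (2 * L * Q) * √x :=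
          mul_le_mul_of_nonneg_right h17 hs0
      _ = 2 * L * (Q * √x) := by ring
  have hCL : 0 ≤ C * L ^ 6 := by positivity
  calc C * L ^ 6 * (x / D1 * (2 - 2 / (2 : ℝ) ^ (K + 1)) + ((K + 1 : ℕ) : ℝ) * Y +
        (((2 : ℝ) ^ (K + 1) - 1) * D1) * √x)
      ≤ C * L ^ 6 * (2 * L * (x / D1) + 2 * L * Y + 2 * L * (Q * √x)) :=
        mul_le_mul_of_nonneg_left (by linarith) hCL
    _ = 2 * C * L ^ 7 * (x / D1 + Y + Q * √x) := by ring

end BVM
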