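import Pool.Agent.helper10.BV.D7
import Pool.Agent.helper10.BV.D8
import Pool.Agent.helper10.BV.D9
import Pool.Agent.helper10.BV.D10
import Pool.Agent.helper10.BV.D11

/-!
# BVA-D12: Bombieri-Vinogradov for the Riesz means at a good scale
-/

open Finset ArithmeticFunction

namespace BVM

/-- `∑_{q ≤ Q} T_q(u) ≤ C x/(log x)^A` at a good scale `x`, for `1 ≤ u ≤ x`,
`Q ≤ √x/(log x)^(A+10)`.

PROOF. `L = log x ≥ 1`. `C1 ≥ 0` (replace by `max 0 C1`) from `hSW (2A+20) (A+10)`; `C2 ≥ 0` from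
`hDy`; `C3 ≥ 0` from `exists_log_pow_mul_rpow_le'` with `k = 0`, exponent `A + 10`, `θ = 19/20`.
Put `D1 = ⌊L^(A+10)⌋₊`, so `1 ≤ D1`, `L^(A+10)/2 ≤ D1 ≤ L^(A+10)`. By `sum_TT_le_prim`,
`∑ T_q(u) ≤ Φ M + 2 Q log Q log u` with `Φ = ∑_{m≤Q} 1/φ(m) ≤ 2 (1+log Q)^2 ≤ 8 L^2`
(`sum_inv_totient_le`, `Q ≤ √x ≤ x` so `log Q ≤ L`; if `Q = 0` everything is `0`), and
`M = ∑_{1<d≤Q} S_d/φ(d) ≤ M1 + M2`,
`M1 = ∑_{1<d≤D1} ≤ D1 C1 x/L^(2A+20) ≤ C1 x/L^(A+10)` (`sum_small_le`, since `d ≤ D1 ≤ L^(A+10)`),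
`M2 = ∑_{D1<d≤Q} ≤ 2 C2 L^7 (x/D1 + x^(19/20) + Q √x)` if `D1 ≤ Q` (`dyadic_sum`), and `M2 = 0`
(empty) otherwise; `x/D1 ≤ 2x/L^(A+10)`, `x^(19/20) ≤ C3 x/L^(A+10)`,
`Q √x ≤ x/L^(A+10)`; so `M2 ≤ 2 C2 (3 + C3) x/L^(A+3)`.
Therefore `Φ M ≤ 8 (C1 + 2 C2 (3+C3)) x/L^(A+1)`, and
`2 Q log Q log u ≤ 2 √x L^2/L^(A+10) ≤ 2 x/L^A`. `C = 8 (C1 + 2 C2 (3 + C3)) + 2`. -/
theorem sum_TT_good (hDy : DyadicBound) (hSW : SWBound) (A : ℕ) :
    ∃ C : ℝ, 0 ≤ C ∧ ∀ x : ℝ, 3 ≤ x → Good (A + 10) x →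
      ∀ Q : ℕ, (Q : ℝ) ≤ √x / Real.log x ^ (A + 10) → ∀ u : ℝ, 1 ≤ u → u ≤ x →
        ∑ q ∈ Icc 1 Q, TT q u ≤ C * x / Real.log x ^ A := by
  classical
  obtain ⟨C1', hC1'⟩ := hSW (2 * A + 20) (A + 10)
  obtain ⟨C2', hC2'⟩ := hDy
  obtain ⟨C3, hC3, h3⟩ := exists_log_pow_mul_rpow_le' 0 (A + 10) (θ := 19 / 20) (by norm_num)
  set C1 : ℝ := max 0 C1' with hC1def
  set C2 : ℝ := max 0 C2' with hC2def
  have hC1 : 0 ≤ C1 := le_max_left _ _
  have hC2 : 0 ≤ C2 := le_max_left _ _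
  refine ⟨8 * (C1 + 2 * C2 * (3 + C3)) + 2, by positivity, ?_⟩
  intro x hx hG Q hQ u hu hux
  set L : ℝ := Real.log x with hLdef
  have hL : 1 ≤ L := one_le_log hx
  have hL0 : 0 < L := by linarith
  have hx0 : 0 < x := by linarith
  have hx1 : 1 ≤ x := by linarith
  have hP : 0 < L ^ (A + 10) := pow_pos hL0 _
  have hP1 : 1 ≤ L ^ (A + 10) := one_le_pow₀ hL
  have hsx : √x ≤ x := by
    rw [Real.sqrt_le_left hx0.le]
    nlinarith
  have hsx0 : 0 ≤ √x := Real.sqrt_nonneg x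
  have hsxx : √x * √x = x := Real.mul_self_sqrt hx0.le
  have hQs : (Q : ℝ) ≤ √x := by
    refine hQ.trans ?_
    exact div_le_self hsx0 hP1
  have hQL : Real.log Q ≤ L := by
    rcases Nat.eq_zero_or_pos Q with h | h
    · subst h
      simp only [Nat.cast_zero, Real.log_zero]
      linarith
    · exact Real.log_le_log (by exact_mod_cast h) (hQs.trans hsx)
  have hQ0 : 0 ≤ Real.log Q := Real.log_natCast_nonneg Q
  have huL : Real.log u ≤ L := Real.log_le_log (by linarith) hux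
  have hu0 : 0 ≤ Real.log u := Real.log_nonneg hu
  -- the splitting point
  set D1 : ℕ := ⌊L ^ (A + 10)⌋₊ with hD1def
  have hD1le : (D1 : ℝ) ≤ L ^ (A + 10) := Nat.floor_le hP.le
  have hD11 : 1 ≤ D1 := by
    rw [hD1def]
    exact Nat.le_floor (by simpa using hP1)
  have hD1r : (1 : ℝ) ≤ D1 := by exact_mod_cast hD11
  have hD1ge : L ^ (A + 10) / 2 ≤ D1 := by
    have h := Nat.lt_floor_add_one (L ^ (A + 10))
    rw [← hD1def] at h
    linarith
  -- small conductors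
  have hM1 : ∑ d ∈ Ioc 1 D1, (1 / (d.totient : ℝ)) * SS d u ≤ C1 * (x / L ^ (A + 10)) := by
    have hK : 0 ≤ C1 * x / L ^ (2 * A + 20) := by positivity
    have h := sum_small_le (x := x) (u := u) (K := C1 * x / L ^ (2 * A + 20)) (D1 := D1)
      (by linarith) hux hK (by
        intro q hq1 hqD χ hχ hχ1 y hy
        have hqL : (q : ℝ) ≤ Real.log x ^ (A + 10) := by
          refine le_trans ?_ hD1le
          exact_mod_cast hqD
        have h := hC1' x hx hG q hq1 hqL χ hχ hχ1 y hy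
        refine h.trans ?_
        rw [← hLdef, div_eq_mul_inv, div_eq_mul_inv, mul_assoc, mul_assoc]
        refine mul_le_mul_of_nonneg_right (le_max_right _ _) (by positivity))
    refine h.trans ?_
    calc (D1 : ℝ) * (C1 * x / L ^ (2 * A + 20))
        ≤ L ^ (A + 10) * (C1 * x / L ^ (2 * A + 20)) := mul_le_mul_of_nonneg_right hD1le hK
      _ = C1 * (x / L ^ (A + 10)) := by
          have e : L ^ (2 * A + 20) = L ^ (A + 10) * L ^ (A + 10) := by
            rw [← pow_add]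
            congr 1
            ring
          rw [e]
          field_simp
  have hy0 : 0 ≤ x / L ^ (A + 10) := by positivity
  have hnn : ∀ d : ℕ, 0 ≤ (1 / (d.totient : ℝ)) * SS d u := fun d =>
    mul_nonneg (by positivity) (SS_nonneg d u)
  -- large conductors
  have hM : ∑ d ∈ Ioc 1 Q, (1 / (d.totient : ℝ)) * SS d u ≤
      L ^ 7 * ((C1 + 2 * C2 * (3 + C3)) * (x / L ^ (A + 10))) := by
    have hL7 : 1 ≤ L ^ 7 := one_le_pow₀ hL
    rcases le_total D1 Q with h | h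
    · rw [← Finset.sum_Ioc_consecutive _ hD11 h]
      have hd := dyadic_sum (C := C2) (x := x) (u := u) hx hC2 (by
        intro D hD hDx
        have h1 := hC2' x D u hx hD hDx (by linarith) hux
        refine h1.trans ?_
        rw [mul_assoc, mul_assoc]
        refine mul_le_mul_of_nonneg_right (le_max_right _ _) ?_
        have : 0 ≤ x ^ (19 / 20 : ℝ) := Real.rpow_nonneg hx0.le _
        have : 0 ≤ Real.log x ^ 6 := by positivity
        positivity) hD11 h hQs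
      rw [← hLdef] at hd
      have ha : x / D1 ≤ 2 * (x / L ^ (A + 10)) := by
        rw [div_le_iff₀ (by linarith)]
        have : 2 * (x / L ^ (A + 10)) * (L ^ (A + 10) / 2) = x := by
          field_simp
        calc x = 2 * (x / L ^ (A + 10)) * (L ^ (A + 10) / 2) := this.symm
          _ ≤ 2 * (x / L ^ (A + 10)) * D1 := mul_le_mul_of_nonneg_left hD1ge (by positivity)
      have hb : x ^ (19 / 20 : ℝ) ≤ C3 * (x / L ^ (A + 10)) := by
        have h := h3 x hx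
        rw [pow_zero, one_mul, ← hLdef, mul_div_assoc] at h
        exact h
      have hc : Q * √x ≤ x / L ^ (A + 10) := by
        calc Q * √x ≤ √x / L ^ (A + 10) * √x := mul_le_mul_of_nonneg_right hQ hsx0
          _ = (√x * √x) / L ^ (A + 10) := by ring
          _ = x / L ^ (A + 10) := by rw [hsxx]
      have hd' : ∑ d ∈ Ioc D1 Q, (1 / (d.totient : ℝ)) * SS d u ≤
          L ^ 7 * (2 * C2 * (3 + C3) * (x / L ^ (A + 10))) := by
        refine hd.trans ?_
        calc 2 * C2 * L ^ 7 * (x / D1 + x ^ (19 / 20 : ℝ) + Q * √x)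
            ≤ 2 * C2 * L ^ 7 * (2 * (x / L ^ (A + 10)) + C3 * (x / L ^ (A + 10)) +
                x / L ^ (A + 10)) := by
              refine mul_le_mul_of_nonneg_left (by linarith) (by positivity)
          _ = _ := by ring
      have h1' : C1 * (x / L ^ (A + 10)) ≤ L ^ 7 * (C1 * (x / L ^ (A + 10))) :=
        le_mul_of_one_le_left (by positivity) hL7
      calc _ ≤ L ^ 7 * (C1 * (x / L ^ (A + 10))) +
            L ^ 7 * (2 * C2 * (3 + C3) * (x / L ^ (A + 10))) :=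
            add_le_add (hM1.trans h1') hd'
        _ = _ := by ring
    · have hsub : ∑ d ∈ Ioc 1 Q, (1 / (d.totient : ℝ)) * SS d u ≤
          ∑ d ∈ Ioc 1 D1, (1 / (d.totient : ℝ)) * SS d u :=
        Finset.sum_le_sum_of_subset_of_nonneg (Finset.Ioc_subset_Ioc_right h)
          fun d _ _ => hnn d
      refine hsub.trans (hM1.trans ?_)
      have h2 : C1 * (x / L ^ (A + 10)) ≤ (C1 + 2 * C2 * (3 + C3)) * (x / L ^ (A + 10)) := by
        refine mul_le_mul_of_nonneg_right ?_ hy0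
        have : 0 ≤ 2 * C2 * (3 + C3) := by positivity
        linarith
      refine h2.trans ?_
      exact le_mul_of_one_le_left (by positivity) hL7
  have hΦ : ∑ m ∈ Icc 1 Q, 1 / (m.totient : ℝ) ≤ 8 * L ^ 2 := by
    refine (sum_inv_totient_le Q).trans ?_
    have h1 : 1 + Real.log Q ≤ 2 * L := by linarith
    have h2 : (1 + Real.log Q) ^ 2 ≤ (2 * L) ^ 2 := by
      refine pow_le_pow_left₀ (by linarith) h1 2
    nlinarith
  have hM0 : 0 ≤ L ^ 7 * ((C1 + 2 * C2 * (3 + C3)) * (x / L ^ (A + 10))) := by positivity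
  have hmain : (∑ m ∈ Icc 1 Q, 1 / (m.totient : ℝ)) *
      (∑ d ∈ Ioc 1 Q, (1 / (d.totient : ℝ)) * SS d u) ≤
      8 * (C1 + 2 * C2 * (3 + C3)) * (x / L ^ A) := by
    calc _ ≤ (8 * L ^ 2) * (L ^ 7 * ((C1 + 2 * C2 * (3 + C3)) * (x / L ^ (A + 10)))) :=
          mul_le_mul hΦ hM (Finset.sum_nonneg fun d _ => hnn d) (by positivity)
      _ = 8 * (C1 + 2 * C2 * (3 + C3)) * (x / L ^ A) * (1 / L) := by
          rw [pow_add]
          field_simp
      _ ≤ 8 * (C1 + 2 * C2 * (3 + C3)) * (x / L ^ A) := by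
          refine mul_le_of_le_one_right (by positivity) ?_
          rw [div_le_one hL0]
          exact hL
  have herr : 2 * Q * Real.log Q * Real.log u ≤ 2 * (x / L ^ A) := by
    have h1 : Real.log Q * Real.log u ≤ L * L := mul_le_mul hQL huL hu0 hL0.le
    have h2 : (Q : ℝ) ≤ x / L ^ (A + 10) := by
      refine hQ.trans ?_
      exact div_le_div_of_nonneg_right hsx hP.le
    calc 2 * Q * Real.log Q * Real.log u = 2 * (Q * (Real.log Q * Real.log u)) := by ring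
      _ ≤ 2 * (x / L ^ (A + 10) * (L * L)) := by
          refine mul_le_mul_of_nonneg_left ?_ (by norm_num)
          exact mul_le_mul h2 h1 (mul_nonneg hQ0 hu0) hy0
      _ = 2 * (x / L ^ A) * (1 / L ^ 8) := by
          rw [pow_add]
          field_simp
      _ ≤ 2 * (x / L ^ A) := by
          refine mul_le_of_le_one_right (by positivity) ?_
          rw [div_le_one (by positivity)]
          exact one_le_pow₀ hL
  calc ∑ q ∈ Icc 1 Q, TT q u
      ≤ _ := sum_TT_le_prim Q hu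
    _ ≤ 8 * (C1 + 2 * C2 * (3 + C3)) * (x / L ^ A) + 2 * (x / L ^ A) := add_le_add hmain herr
    _ = (8 * (C1 + 2 * C2 * (3 + C3)) + 2) * x / L ^ A := by ring

end BVM
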