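import Pool.Agent.helper10.BV.Defs3

/-!
# BVA-D13: oscillation of `E(t)` on a cell
-/

open Finset ArithmeticFunction

namespace BVM

open Classical in
private theorem D13_count {q a s t : ℕ} (hq : q ≠ 0) (hst : s ≤ t) :
    (((Ioc s t).filter (fun n => n ≡ a [MOD q])).card : ℝ) ≤ ((t : ℝ) - s) / q + 1 := by
  have hq' : 0 < q := Nat.pos_of_ne_zero hq
  have h1 : ((((Ioc s t).filter (fun n => n ≡ a [MOD q])).card : ℕ) : ℤ) =
      max (⌊((t : ℚ) - a) / (q : ℚ)⌋ - ⌊((s : ℚ) - a) / (q : ℚ)⌋) 0 := by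
    rw [← Nat.Ioc_filter_modEq_card s t hq' a]
  have hq0 : (0 : ℚ) < (q : ℚ) := by exact_mod_cast hq'
  have hst' : (s : ℚ) ≤ (t : ℚ) := by exact_mod_cast hst
  have h2 : ((((Ioc s t).filter (fun n => n ≡ a [MOD q])).card : ℕ) : ℚ) ≤
      ((t : ℚ) - s) / q + 1 := by
    have h3 : ((((Ioc s t).filter (fun n => n ≡ a [MOD q])).card : ℕ) : ℚ) =
        ((max (⌊((t : ℚ) - a) / (q : ℚ)⌋ - ⌊((s : ℚ) - a) / (q : ℚ)⌋) 0 : ℤ) : ℚ) := by
      rw [← h1]
      push_cast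
      rfl
    rw [h3, Int.cast_max]
    apply max_le
    · push_cast
      have h4 := Int.floor_le (((t : ℚ) - a) / (q : ℚ))
      have h5 := (Int.sub_one_lt_floor (((s : ℚ) - a) / (q : ℚ))).le
      have h6 : ((t : ℚ) - s) / q = ((t : ℚ) - a) / q - ((s : ℚ) - a) / q := by ring
      rw [h6]
      linarith
    · push_cast
      have : 0 ≤ ((t : ℚ) - s) / q := div_nonneg (by linarith) hq0.le
      linarith
  have h7 : (((((Ioc s t).filter (fun n => n ≡ a [MOD q])).card : ℕ) : ℚ) : ℝ) ≤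
      ((((t : ℚ) - s) / q + 1 : ℚ) : ℝ) := by exact_mod_cast h2
  push_cast at h7
  exact h7

open Classical in
private theorem D13_ee {q a n x : ℕ} (hn1 : 1 ≤ n) (hn : n ≤ x) :
    |ee q a n| ≤ Real.log x * ((if n ≡ a [MOD q] then (1 : ℝ) else 0) + 1 / (q.totient : ℝ)) := by
  unfold ee
  have hn0 : (0 : ℝ) < (n : ℝ) := by exact_mod_cast hn1
  have hL : (vonMangoldt n : ℝ) ≤ Real.log x :=
    vonMangoldt_le_log.trans (Real.log_le_log hn0 (by exact_mod_cast hn))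
  have hphi : (0 : ℝ) ≤ 1 / (q.totient : ℝ) := by positivity
  rw [abs_mul, abs_of_nonneg vonMangoldt_nonneg]
  apply mul_le_mul hL _ (abs_nonneg _) (le_trans vonMangoldt_nonneg hL)
  refine (abs_sub _ _).trans ?_
  apply add_le_add
  · split_ifs <;> simp
  · split_ifs
    · rw [abs_of_nonneg hphi]
    · rw [abs_zero]
      exact hphi

/-- `|E(t) - E(s)| ≤ I_q` for `s ≤ t ≤ s + h`, `t ≤ x`.

PROOF. `E(t) - E(s) = ∑_{n ∈ Ioc s t} e_n`, `|e_n| ≤ Λ(n) (1_{n≡a} + 1/φ(q))`,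
`0 ≤ Λ(n) ≤ log n ≤ log x` (`ArithmeticFunction.vonMangoldt_le_log`, `1 ≤ n ≤ x`). The number of
`n ∈ Ioc s t`, `n ≡ a mod q`, is at most `(t - s)/q + 1 ≤ h/q + 1`
(`Nat.Ioc_filter_modEq_card` or `Int.Ioc_filter_modEq_card`), and `card (Ioc s t) = t - s ≤ h`.
`x ≥ 1` so `log x ≥ 0` (for `x = 0`: `t = s = 0`). -/
theorem abs_EE_sub_le {q a s t h x : ℕ} (hq : q ≠ 0) (hst : s ≤ t) (hts : t ≤ s + h)
    (htx : t ≤ x) : |EE q a t - EE q a s| ≤ Iq h x q := by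
  classical
  have h1 : EE q a t - EE q a s = ∑ n ∈ Ioc s t, ee q a n := by
    have e := Finset.sum_Ioc_consecutive (fun n => ee q a n) (Nat.zero_le s) hst
    have e1 : EE q a t = ∑ n ∈ Ioc 0 t, ee q a n := rfl
    have e2 : EE q a s = ∑ n ∈ Ioc 0 s, ee q a n := rfl
    rw [e1, e2, ← e]
    ring
  have hlx : 0 ≤ Real.log x := Real.log_natCast_nonneg x
  have h2 : |EE q a t - EE q a s| ≤
      ∑ n ∈ Ioc s t, Real.log x * ((if n ≡ a [MOD q] then (1 : ℝ) else 0) +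
        1 / (q.totient : ℝ)) := by
    rw [h1]
    refine (Finset.abs_sum_le_sum_abs _ _).trans (Finset.sum_le_sum ?_)
    intro n hn
    rw [Finset.mem_Ioc] at hn
    exact D13_ee (by omega) (hn.2.trans htx)
  refine h2.trans ?_
  rw [← Finset.mul_sum, Finset.sum_add_distrib, Finset.sum_boole, Finset.sum_const,
    Nat.card_Ioc, nsmul_eq_mul]
  unfold Iq
  apply mul_le_mul_of_nonneg_left _ hlx
  have hth : ((t - s : ℕ) : ℝ) ≤ (h : ℝ) := by exact_mod_cast (by omega : t - s ≤ h)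
  have hth' : (t : ℝ) - s ≤ (h : ℝ) := by
    have : ((t - s : ℕ) : ℝ) = (t : ℝ) - s := by push_cast [Nat.cast_sub hst]; rfl
    rw [← this]
    exact hth
  have hq0 : (0 : ℝ) ≤ (q : ℝ) := Nat.cast_nonneg q
  apply add_le_add
  · refine (D13_count hq hst).trans ?_
    have : ((t : ℝ) - s) / q ≤ (h : ℝ) / q := div_le_div_of_nonneg_right hth' hq0
    linarith
  · rw [mul_one_div]
    exact div_le_div_of_nonneg_right hth (Nat.cast_nonneg _)

end BVM
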