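import Pool.Agent.helper10.BV.Defs3

/-!
# BVA-D2: orthogonality, `|W(N)| ≤ N T_q(N)`
-/

open Finset ArithmeticFunction

namespace BVM

/-- orthogonality without the principal character -/
private theorem D2_orth {q a : ℕ} (hq : q ≠ 0) (ha : a.Coprime q) (n : ℕ) :
    (((if n ≡ a [MOD q] then (1 : ℝ) else 0)
      - (if n.Coprime q then 1 / (q.totient : ℝ) else 0) : ℝ) : ℂ)
      = (1 / (q.totient : ℂ)) * ∑ χ ∈ nonPrin q, χ ((a : ZMod q)⁻¹) * χ (n : ZMod q) := by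
  classical
  have : NeZero q := ⟨hq⟩
  have hu : IsUnit (a : ZMod q) := (ZMod.isUnit_iff_coprime a q).2 ha
  have hset : nonPrin q = Finset.univ.erase (1 : DirichletCharacter ℂ q) := by
    ext χ
    rw [mem_nonPrin hq, Finset.mem_erase]
    simp
  have htot : (q.totient : ℂ) ≠ 0 := by
    have : 0 < q.totient := Nat.totient_pos.2 (Nat.pos_of_ne_zero hq)
    exact_mod_cast this.ne'
  have h1 : (1 : DirichletCharacter ℂ q) ((a : ZMod q)⁻¹) = 1 := by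
    have h2 : (1 : DirichletCharacter ℂ q) ((a : ZMod q)⁻¹ * (a : ZMod q)) = 1 := by
      rw [ZMod.inv_mul_of_unit _ hu, map_one]
    rw [map_mul, MulChar.one_apply hu, mul_one] at h2
    exact h2
  rw [hset, Finset.sum_erase_eq_sub (Finset.mem_univ _),
    DirichletCharacter.sum_char_inv_mul_char_eq ℂ hu, h1, one_mul, mul_sub]
  have e1 : ((a : ZMod q) = (n : ZMod q)) ↔ n ≡ a [MOD q] := by
    rw [eq_comm]
    exact ZMod.natCast_eq_natCast_iff n a q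
  by_cases hn : n.Coprime q
  · have h3 : (1 : DirichletCharacter ℂ q) (n : ZMod q) = 1 :=
      MulChar.one_apply ((ZMod.isUnit_iff_coprime n q).2 hn)
    rw [h3]
    by_cases hm : n ≡ a [MOD q]
    · rw [if_pos hm, if_pos hn, if_pos (e1.2 hm)]
      push_cast
      field_simp
    · rw [if_neg hm, if_pos hn, if_neg (fun h => hm (e1.1 h))]
      push_cast
      ring
  · have h3 : (1 : DirichletCharacter ℂ q) (n : ZMod q) = 0 :=
      MulChar.map_nonunit _ (fun h => hn ((ZMod.isUnit_iff_coprime n q).1 h))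
    rw [h3]
    have hm : ¬ n ≡ a [MOD q] := by
      intro hm
      apply hn
      have h4 : Nat.gcd n q = Nat.gcd a q := Nat.ModEq.gcd_eq hm
      rw [Nat.Coprime, h4]
      exact ha
    rw [if_neg hm, if_neg hn, if_neg (fun h => hm (e1.1 h))]
    simp

private theorem D2_riesz {q : ℕ} (χ : DirichletCharacter ℂ q) {N : ℕ} (hN : N ≠ 0) :
    (N : ℂ) * rieszChi χ (N : ℝ)
      = ∑ n ∈ Icc 1 N, ((vonMangoldt n : ℝ) : ℂ) * χ (n : ZMod q) * ((N : ℂ) - n) := by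
  unfold rieszChi
  rw [Nat.floor_natCast, Finset.mul_sum]
  apply Finset.sum_congr rfl
  intro n hn
  rw [Finset.mem_Icc] at hn
  have hN' : (0 : ℝ) < N := by exact_mod_cast Nat.pos_of_ne_zero hN
  have h1 : rz ((n : ℝ) / (N : ℝ)) = ((N : ℝ) - n) / N := by
    unfold rz
    have h2 : (n : ℝ) / N ≤ 1 := by
      rw [div_le_one hN']
      exact_mod_cast hn.2
    rw [max_eq_right (by linarith)]
    field_simp
  rw [h1]
  have hNc : (N : ℂ) ≠ 0 := by exact_mod_cast hN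
  push_cast
  field_simp

/-- `|W(N)| ≤ N T_q(N)` for `(a, q) = 1`.

PROOF. Let `u : (ZMod q)ˣ` be the unit of `a` (`ZMod.unitOfCoprime`). For every natural `n`:
`(1/φ(q)) ∑_{χ ≠ 1} χ(u⁻¹) χ(n) = 1_{n ≡ a mod q} - 1_{(n,q)=1}/φ(q)`:
the sum over ALL characters is `φ(q)` if `(n : ZMod q) = a` and `0` otherwise
(`DirichletCharacter.sum_char_inv_mul_char_eq`), the principal character contributes
`1 * 1_{(n,q)=1}` (`MulChar.one_apply`, `ZMod.isUnit_iff_coprime`); for `χ ∉` `allChar` there is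
nothing (`mem_nonPrin`; convert the sum over `nonPrin q` to `Finset.univ.erase 1` or
`univ.filter (· ≠ 1)` with `haveI : NeZero q`, `Finset.sum_congr` + `Finset.ext`).
`(n : ZMod q) = (a : ZMod q) ↔ n ≡ a [MOD q]` (`ZMod.natCast_eq_natCast_iff`).
Hence, in `ℂ`, `(W(N) : ℂ) = ∑_{n ≤ N} Λ(n) (N - n) (1/φ) ∑_{χ≠1} χ(u⁻¹) χ(n)
 = (N/φ(q)) ∑_{χ≠1} χ(u⁻¹) R_χ(N)`, because `rz (n/N) = 1 - n/N = (N-n)/N` for `1 ≤ n ≤ N`
(`Nat.floor_natCast`; the case `N = 0` is trivial, both sides are `0`). Take norms: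
`‖χ(u⁻¹)‖ ≤ 1` (`DirichletCharacter.norm_le_one`), `Complex.norm_real`. -/
theorem abs_WW_le {q a : ℕ} (hq : q ≠ 0) (ha : a.Coprime q) (N : ℕ) :
    |WW q a N| ≤ N * TT q N := by
  classical
  rcases Nat.eq_zero_or_pos N with hN0 | hN0
  · subst hN0
    simp [WW]
  have hN : N ≠ 0 := hN0.ne'
  have hkey : ((WW q a N : ℝ) : ℂ)
      = (1 / (q.totient : ℂ)) * ∑ χ ∈ nonPrin q,
        χ ((a : ZMod q)⁻¹) * ((N : ℂ) * rieszChi χ (N : ℝ)) := by
    have h1 : ((WW q a N : ℝ) : ℂ) = ∑ n ∈ Icc 1 N, ((vonMangoldt n : ℝ) : ℂ)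
        * ((1 / (q.totient : ℂ)) * ∑ χ ∈ nonPrin q, χ ((a : ZMod q)⁻¹) * χ (n : ZMod q))
        * ((N : ℂ) - n) := by
      unfold WW ee
      rw [Complex.ofReal_sum]
      apply Finset.sum_congr rfl
      intro n _
      rw [← D2_orth hq ha n]
      push_cast
      ring
    rw [h1]
    have h2 : ∀ χ ∈ nonPrin q, χ ((a : ZMod q)⁻¹) * ((N : ℂ) * rieszChi χ (N : ℝ))
        = ∑ n ∈ Icc 1 N, χ ((a : ZMod q)⁻¹)
          * (((vonMangoldt n : ℝ) : ℂ) * χ (n : ZMod q) * ((N : ℂ) - n)) := by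
      intro χ _
      rw [D2_riesz χ hN, Finset.mul_sum]
    rw [Finset.sum_congr rfl h2, Finset.sum_comm, Finset.mul_sum]
    apply Finset.sum_congr rfl
    intro n _
    rw [Finset.mul_sum, Finset.mul_sum, Finset.sum_mul, Finset.mul_sum]
    apply Finset.sum_congr rfl
    intro χ _
    ring
  have h3 : |WW q a N| = ‖((WW q a N : ℝ) : ℂ)‖ := by
    rw [Complex.norm_real, Real.norm_eq_abs]
  rw [h3, hkey, norm_mul]
  have h4 : ‖(1 / (q.totient : ℂ))‖ = 1 / (q.totient : ℝ) := by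
    rw [norm_div, norm_one, Complex.norm_natCast]
  rw [h4]
  unfold TT
  have h5 : ‖∑ χ ∈ nonPrin q, χ ((a : ZMod q)⁻¹) * ((N : ℂ) * rieszChi χ (N : ℝ))‖
      ≤ ∑ χ ∈ nonPrin q, (N : ℝ) * ‖rieszChi χ (N : ℝ)‖ := by
    refine le_trans (norm_sum_le _ _) (Finset.sum_le_sum fun χ _ => ?_)
    rw [norm_mul, norm_mul, Complex.norm_natCast]
    have h6 : ‖χ ((a : ZMod q)⁻¹)‖ ≤ 1 := DirichletCharacter.norm_le_one χ _
    have h7 : 0 ≤ (N : ℝ) * ‖rieszChi χ (N : ℝ)‖ := by positivity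
    calc ‖χ ((a : ZMod q)⁻¹)‖ * ((N : ℝ) * ‖rieszChi χ (N : ℝ)‖)
        ≤ 1 * ((N : ℝ) * ‖rieszChi χ (N : ℝ)‖) := mul_le_mul_of_nonneg_right h6 h7
      _ = _ := one_mul _
  calc 1 / (q.totient : ℝ)
        * ‖∑ χ ∈ nonPrin q, χ ((a : ZMod q)⁻¹) * ((N : ℂ) * rieszChi χ (N : ℝ))‖
      ≤ 1 / (q.totient : ℝ) * ∑ χ ∈ nonPrin q, (N : ℝ) * ‖rieszChi χ (N : ℝ)‖ :=
        mul_le_mul_of_nonneg_left h5 (by positivity)
    _ = (N : ℝ) * (1 / (q.totient : ℝ) * ∑ χ ∈ nonPrin q, ‖rieszChi χ (N : ℝ)‖) := by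
        rw [← Finset.mul_sum]
        ring

end BVM
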