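import Pool.Agent.helper10.BV.D1
import Pool.Agent.helper10.BV.D2
import Pool.Agent.helper10.BV.D13

/-!
# BVA-D14: un-smoothing, the grid bound
-/

open Finset ArithmeticFunction

namespace BVM

private theorem D14_Iq_nonneg (h x q : ℕ) : 0 ≤ Iq h x q := by
  unfold Iq
  have h1 : 0 ≤ Real.log (x : ℝ) := Real.log_natCast_nonneg x
  positivity

private theorem D14_EE_zero (q a : ℕ) : EE q a 0 = 0 := by
  simp [EE]

/-- the value at a grid point -/
private theorem D14_grid {q a h x j : ℕ} (hq : q ≠ 0) (ha : a.Coprime q) (hh : 1 ≤ h)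
    (hj : (j + 1) * h ≤ x) :
    |EE q a ((j + 1) * h)| ≤
      ((j + 1 : ℕ) : ℝ) * TT q (((j + 1) * h : ℕ) : ℝ) + (j : ℝ) * TT q ((j * h : ℕ) : ℝ)
        + Iq h x q := by
  have hpos : (0 : ℝ) < h := by exact_mod_cast hh
  have e1 : ∑ s ∈ Ico (j * h) ((j + 1) * h), EE q a s
      = WW q a ((j + 1) * h) - WW q a (j * h) := by
    rw [WW_eq_sum, WW_eq_sum, Finset.sum_Ico_eq_sub _ (by nlinarith)]
  have ecard : (Ico (j * h) ((j + 1) * h)).card = h := by
    rw [Nat.card_Ico, add_mul, one_mul]; omega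
  have e2 : (h : ℝ) * EE q a ((j + 1) * h)
      = (WW q a ((j + 1) * h) - WW q a (j * h))
        + ∑ s ∈ Ico (j * h) ((j + 1) * h), (EE q a ((j + 1) * h) - EE q a s) := by
    rw [Finset.sum_sub_distrib, Finset.sum_const, ecard, nsmul_eq_mul, ← e1]
    ring
  have e3 : |∑ s ∈ Ico (j * h) ((j + 1) * h), (EE q a ((j + 1) * h) - EE q a s)|
      ≤ h * Iq h x q := by
    refine le_trans (Finset.abs_sum_le_sum_abs _ _) ?_
    refine le_trans (Finset.sum_le_card_nsmul _ _ (Iq h x q) ?_) ?_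
    · intro s hs
      rw [Finset.mem_Ico] at hs
      exact abs_EE_sub_le hq hs.2.le (by nlinarith [hs.1]) hj
    · rw [ecard, nsmul_eq_mul]
  have e4 := abs_WW_le hq ha ((j + 1) * h)
  have e5 := abs_WW_le hq ha (j * h)
  have e6 : (h : ℝ) * |EE q a ((j + 1) * h)| ≤
      (((j + 1) * h : ℕ) : ℝ) * TT q (((j + 1) * h : ℕ) : ℝ)
        + ((j * h : ℕ) : ℝ) * TT q ((j * h : ℕ) : ℝ) + h * Iq h x q := by
    have : (h : ℝ) * |EE q a ((j + 1) * h)| = |(h : ℝ) * EE q a ((j + 1) * h)| := by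
      rw [abs_mul, abs_of_pos hpos]
    rw [this, e2]
    calc _ ≤ |WW q a ((j + 1) * h) - WW q a (j * h)| + _ := abs_add_le _ _
      _ ≤ (|WW q a ((j + 1) * h)| + |WW q a (j * h)|) + _ := by
          gcongr; exact abs_sub _ _
      _ ≤ _ := by gcongr
  have e7 : (((j + 1) * h : ℕ) : ℝ) * TT q (((j + 1) * h : ℕ) : ℝ)
        + ((j * h : ℕ) : ℝ) * TT q ((j * h : ℕ) : ℝ) + h * Iq h x q
      = h * (((j + 1 : ℕ) : ℝ) * TT q (((j + 1) * h : ℕ) : ℝ)
        + (j : ℝ) * TT q ((j * h : ℕ) : ℝ) + Iq h x q) := by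
    push_cast; ring
  rw [e7] at e6
  exact le_of_mul_le_mul_left e6 hpos

/-- `|E(t)| ≤ G_q` for all `t ≤ x`, `(a,q) = 1`.

PROOF. `j = t / h`, `J = x / h`, `j ≤ J`. If `j = 0` then `t < h` and
`|E(t)| = |E(t) - E(0)| ≤ I_q` (`E(0) = 0`), and `I_q ≤ G_q` (all terms nonnegative).
If `j ≥ 1`: `E(t) = (E(t) - E(jh)) + E(jh)`, first part `≤ I_q` (`jh ≤ t ≤ jh + h`, `t ≤ x`).
`h E(jh) = ∑_{s ∈ Ico ((j-1)h) (jh)} E(s) + ∑_{s} (E(jh) - E(s))`, the second sum is at most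
`h I_q` in absolute value (`s ≤ jh ≤ s + h`, `jh ≤ x`), the first sum is
`W(jh) - W((j-1)h)` (`WW_eq_sum`, `Finset.sum_Ico_eq_sub` / `Finset.sum_range_add_sum_Ico`...).
By `abs_WW_le`: `|W(jh)| ≤ jh T_q(jh)`, `|W((j-1)h)| ≤ (j-1) h T_q((j-1)h)`. Divide by `h`:
`|E(jh)| ≤ j T_q(jh) + (j-1) T_q((j-1)h) + I_q ≤ J ∑_{i ∈ Icc 1 J} T_q(ih) + I_q`: if `j ≥ 2` the two
terms are different members of the sum, each coefficient is `≤ J`; if `j = 1` the second term is
`0`. -/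
theorem abs_EE_le_GG {q a h x t : ℕ} (hq : q ≠ 0) (ha : a.Coprime q) (hh : 1 ≤ h)
    (ht : t ≤ x) : |EE q a t| ≤ GG h x q := by
  have hI := D14_Iq_nonneg h x q
  have hS : 0 ≤ ∑ j ∈ Icc 1 (x / h), TT q ((j * h : ℕ) : ℝ) :=
    Finset.sum_nonneg fun _ _ => TT_nonneg _ _
  have hJ0 : (0 : ℝ) ≤ ((x / h : ℕ) : ℝ) := Nat.cast_nonneg _
  rcases Nat.eq_zero_or_pos (t / h) with hj | hj
  · have hlt : t < h := by
      rcases (Nat.div_eq_zero_iff).1 hj with h0 | h0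
      · omega
      · exact h0
    have := abs_EE_sub_le (a := a) hq (Nat.zero_le t) (by omega : t ≤ 0 + h) ht
    rw [D14_EE_zero, sub_zero] at this
    unfold GG
    have := mul_nonneg hJ0 hS
    linarith
  · obtain ⟨j, hj'⟩ : ∃ j, t / h = j + 1 := ⟨t / h - 1, by omega⟩
    have hjt : (j + 1) * h ≤ t := by
      rw [← hj']; exact Nat.div_mul_le_self t h
    have htj : t ≤ (j + 1) * h + h := by
      have := Nat.lt_div_mul_add (a := t) (b := h) (by omega)
      rw [hj'] at this; omega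
    have hjJ : j + 1 ≤ x / h := by
      rw [← hj']; exact Nat.div_le_div_right ht
    have h1 := abs_EE_sub_le (a := a) hq hjt htj ht
    have h2 := D14_grid (a := a) hq ha hh (le_trans hjt ht)
    have h3 : |EE q a t| ≤ |EE q a t - EE q a ((j + 1) * h)| + |EE q a ((j + 1) * h)| := by
      calc |EE q a t| = |(EE q a t - EE q a ((j + 1) * h)) + EE q a ((j + 1) * h)| := by
            congr 1; ring
        _ ≤ _ := abs_add_le _ _
    have hjJ' : ((j + 1 : ℕ) : ℝ) ≤ ((x / h : ℕ) : ℝ) := by exact_mod_cast hjJ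
    have hj1 : (j : ℝ) ≤ ((x / h : ℕ) : ℝ) := by
      refine le_trans ?_ hjJ'
      exact_mod_cast Nat.le_succ j
    have h4 : ((j + 1 : ℕ) : ℝ) * TT q (((j + 1) * h : ℕ) : ℝ)
        + (j : ℝ) * TT q ((j * h : ℕ) : ℝ)
        ≤ ((x / h : ℕ) : ℝ) * ∑ i ∈ Icc 1 (x / h), TT q ((i * h : ℕ) : ℝ) := by
      rcases Nat.eq_zero_or_pos j with h0 | h0
      · subst h0
        have : TT q (((0 + 1) * h : ℕ) : ℝ) ≤ ∑ i ∈ Icc 1 (x / h), TT q ((i * h : ℕ) : ℝ) :=
          Finset.single_le_sum (f := fun i : ℕ => TT q ((i * h : ℕ) : ℝ))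
            (fun _ _ => TT_nonneg _ _) (by simp; omega)
        calc _ = ((0 + 1 : ℕ) : ℝ) * TT q (((0 + 1) * h : ℕ) : ℝ) := by
              push_cast; ring
          _ ≤ _ := mul_le_mul hjJ' this (TT_nonneg _ _) hJ0
      · have hsub : ({j + 1, j} : Finset ℕ) ⊆ Icc 1 (x / h) := by
          intro i hi
          simp only [Finset.mem_insert, Finset.mem_singleton] at hi
          rw [Finset.mem_Icc]
          rcases hi with rfl | rfl <;> omega
        have h5 : TT q (((j + 1) * h : ℕ) : ℝ) + TT q ((j * h : ℕ) : ℝ)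
            ≤ ∑ i ∈ Icc 1 (x / h), TT q ((i * h : ℕ) : ℝ) := by
          have := Finset.sum_le_sum_of_subset_of_nonneg
            (f := fun i : ℕ => TT q ((i * h : ℕ) : ℝ)) hsub (fun _ _ _ => TT_nonneg _ _)
          rwa [Finset.sum_pair (by omega)] at this
        calc _ ≤ ((x / h : ℕ) : ℝ) * TT q (((j + 1) * h : ℕ) : ℝ)
              + ((x / h : ℕ) : ℝ) * TT q ((j * h : ℕ) : ℝ) :=
              add_le_add (mul_le_mul_of_nonneg_right hjJ' (TT_nonneg _ _))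
                (mul_le_mul_of_nonneg_right hj1 (TT_nonneg _ _))
          _ = ((x / h : ℕ) : ℝ) * (TT q (((j + 1) * h : ℕ) : ℝ) + TT q ((j * h : ℕ) : ℝ)) := by
              ring
          _ ≤ _ := mul_le_mul_of_nonneg_left h5 hJ0
    unfold GG
    linarith

end BVM
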