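import Pool.Agent.helper10.BV.D8

/-!
# BVA-D15: sum of `I_q` over `q`
-/

open Finset ArithmeticFunction

namespace BVM

/-- `∑_{q ≤ Q} I_q ≤ log x (3 h (1 + log Q)^2 + Q)`.

PROOF. `∑ h/q ≤ h (1 + log Q) ≤ h (1+log Q)^2` (`harmonic_le_one_add_log`, `log Q ≥ 0`),
`∑ 1 = Q`, `∑ h/φ(q) ≤ 2 h (1+log Q)^2` (`sum_inv_totient_le`); `log x ≥ 0`. -/
theorem sum_Iq_le (h x Q : ℕ) :
    ∑ q ∈ Icc 1 Q, Iq h x q ≤ Real.log x * (3 * h * (1 + Real.log Q) ^ 2 + Q) := by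
  have hL : (0 : ℝ) ≤ Real.log Q := Real.log_natCast_nonneg Q
  have hlx : (0 : ℝ) ≤ Real.log x := Real.log_natCast_nonneg x
  have h1 : ∑ q ∈ Icc 1 Q, (1 / (q : ℝ)) ≤ 1 + Real.log Q := by
    have := harmonic_le_one_add_log Q
    rw [harmonic_eq_sum_Icc] at this
    push_cast at this
    simpa [one_div] using this
  have h2 := sum_inv_totient_le Q
  have hh : (0 : ℝ) ≤ h := Nat.cast_nonneg h
  have h3 : ∑ q ∈ Icc 1 Q, Iq h x q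
      = Real.log x * ((h : ℝ) * ∑ q ∈ Icc 1 Q, (1 / (q : ℝ)) + Q
        + (h : ℝ) * ∑ q ∈ Icc 1 Q, (1 / (q.totient : ℝ))) := by
    unfold Iq
    rw [← Finset.mul_sum, Finset.sum_add_distrib, Finset.sum_add_distrib, Finset.mul_sum,
      Finset.mul_sum]
    simp [div_eq_mul_inv]
  rw [h3]
  apply mul_le_mul_of_nonneg_left _ hlx
  have h4 : (h : ℝ) * ∑ q ∈ Icc 1 Q, (1 / (q : ℝ)) ≤ h * (1 + Real.log Q) ^ 2 := by
    apply mul_le_mul_of_nonneg_left _ hh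
    nlinarith
  have h5 : (h : ℝ) * ∑ q ∈ Icc 1 Q, (1 / (q.totient : ℝ)) ≤ h * (2 * (1 + Real.log Q) ^ 2) :=
    mul_le_mul_of_nonneg_left h2 hh
  nlinarith

end BVM
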