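import Pool.Agent.helper10.BV.D12
import Pool.Agent.helper10.BV.D15
import Pool.Agent.helper10.BV.D16

/-!
# BVA-D17: Bombieri-Vinogradov at a good scale
-/

open Finset ArithmeticFunction

namespace BVM

/-- Sum of `F_q` over `q ≤ Q`, bookkeeping only.

PROOF. Sum the definition: `∑_q G_q = J ∑_{j ∈ Icc 1 J} ∑_q T_q(jh) + 2 ∑_q I_q` (`Finset.sum_comm`,
`Finset.mul_sum`), each inner sum `≤ S` (for `1 ≤ j ≤ J = x/h`: `jh ≤ x`), so the first term is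
`≤ J^2 S`; `sum_Iq_le`; `∑ 1/φ(q) (2 log q log x + P) ≤ 2 (1+log Q)^2 (2 log Q log x + P)`
(`log q ≤ log Q`, `sum_inv_totient_le`, `P ≥ 0`); last term `Q 2 √x log x`. -/
theorem sum_FF_le {h x Q : ℕ} {P S : ℝ} (hP : 0 ≤ P) (hS : 0 ≤ S)
    (H : ∀ j : ℕ, 1 ≤ j → j ≤ x / h → ∑ q ∈ Icc 1 Q, TT q ((j * h : ℕ) : ℝ) ≤ S) :
    ∑ q ∈ Icc 1 Q, FF h x P q ≤
      ((x / h : ℕ) : ℝ) ^ 2 * S + 2 * (Real.log x * (3 * h * (1 + Real.log Q) ^ 2 + Q))
        + 2 * (1 + Real.log Q) ^ 2 * (2 * Real.log Q * Real.log x + P)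
        + Q * (2 * √(x : ℝ) * Real.log x) := by
  have hlx : 0 ≤ Real.log x := Real.log_natCast_nonneg x
  have hlQ : 0 ≤ Real.log Q := Real.log_natCast_nonneg Q
  have hsplit : ∑ q ∈ Icc 1 Q, FF h x P q =
      ((x / h : ℕ) : ℝ) * ∑ q ∈ Icc 1 Q, ∑ j ∈ Icc 1 (x / h), TT q ((j * h : ℕ) : ℝ)
        + 2 * ∑ q ∈ Icc 1 Q, Iq h x q
        + ∑ q ∈ Icc 1 Q, (1 / (q.totient : ℝ)) * (2 * Real.log q * Real.log x + P)
        + ∑ _q ∈ Icc 1 Q, 2 * √(x : ℝ) * Real.log x := by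
    unfold FF GG
    rw [Finset.sum_add_distrib, Finset.sum_add_distrib, Finset.sum_add_distrib,
      Finset.mul_sum, Finset.mul_sum]
  have h1 : ((x / h : ℕ) : ℝ) * ∑ q ∈ Icc 1 Q, ∑ j ∈ Icc 1 (x / h), TT q ((j * h : ℕ) : ℝ) ≤
      ((x / h : ℕ) : ℝ) ^ 2 * S := by
    rw [Finset.sum_comm]
    have h2 : ∑ j ∈ Icc 1 (x / h), ∑ q ∈ Icc 1 Q, TT q ((j * h : ℕ) : ℝ) ≤
        ∑ _j ∈ Icc 1 (x / h), S := by
      apply Finset.sum_le_sum
      intro j hj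
      rw [Finset.mem_Icc] at hj
      exact H j hj.1 hj.2
    rw [Finset.sum_const, Nat.card_Icc, Nat.add_sub_cancel, nsmul_eq_mul] at h2
    calc ((x / h : ℕ) : ℝ) * ∑ j ∈ Icc 1 (x / h), ∑ q ∈ Icc 1 Q, TT q ((j * h : ℕ) : ℝ)
        ≤ ((x / h : ℕ) : ℝ) * (((x / h : ℕ) : ℝ) * S) := by
          apply mul_le_mul_of_nonneg_left h2 (Nat.cast_nonneg _)
      _ = _ := by ring
  have h3 := sum_Iq_le h x Q
  have h4 : ∑ q ∈ Icc 1 Q, (1 / (q.totient : ℝ)) * (2 * Real.log q * Real.log x + P) ≤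
      2 * (1 + Real.log Q) ^ 2 * (2 * Real.log Q * Real.log x + P) := by
    have hnn : 0 ≤ 2 * Real.log Q * Real.log x + P := by positivity
    calc ∑ q ∈ Icc 1 Q, (1 / (q.totient : ℝ)) * (2 * Real.log q * Real.log x + P)
        ≤ ∑ q ∈ Icc 1 Q, (1 / (q.totient : ℝ)) * (2 * Real.log Q * Real.log x + P) := by
          apply Finset.sum_le_sum
          intro q hq
          rw [Finset.mem_Icc] at hq
          have hq0 : (0 : ℝ) < (q : ℝ) := by exact_mod_cast hq.1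
          have hlog : Real.log q ≤ Real.log Q :=
            Real.log_le_log hq0 (by exact_mod_cast hq.2)
          apply mul_le_mul_of_nonneg_left _ (by positivity)
          have := mul_le_mul_of_nonneg_right hlog hlx
          nlinarith
      _ = (∑ q ∈ Icc 1 Q, 1 / (q.totient : ℝ)) * (2 * Real.log Q * Real.log x + P) := by
          rw [Finset.sum_mul]
      _ ≤ _ := mul_le_mul_of_nonneg_right (sum_inv_totient_le Q) hnn
  have h5 : ∑ _q ∈ Icc 1 Q, 2 * √(x : ℝ) * Real.log x = Q * (2 * √(x : ℝ) * Real.log x) := by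
    rw [Finset.sum_const, Nat.card_Icc, Nat.add_sub_cancel, nsmul_eq_mul]
  rw [hsplit, h5]
  have h6 : 2 * ∑ q ∈ Icc 1 Q, Iq h x q ≤
      2 * (Real.log x * (3 * h * (1 + Real.log Q) ^ 2 + Q)) := by linarith
  linarith

private theorem D17_FF_nonneg {h x : ℕ} {P : ℝ} (hP : 0 ≤ P) (q : ℕ) : 0 ≤ FF h x P q := by
  have hlx : 0 ≤ Real.log x := Real.log_natCast_nonneg x
  have hlq : 0 ≤ Real.log q := Real.log_natCast_nonneg q
  unfold FF GG Iq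
  have h1 : 0 ≤ ∑ j ∈ Icc 1 (x / h), TT q ((j * h : ℕ) : ℝ) :=
    Finset.sum_nonneg fun j _ => TT_nonneg q _
  positivity

private theorem D17_num {L X h J lQ Q P S C1 C4 C5 C6 C7 sx : ℝ} (A : ℕ)
    (hL : 1 ≤ L) (hX : 0 ≤ X) (hJ0 : 0 ≤ J) (hJ : J ≤ L ^ (A + 4))
    (hh : h ≤ X / L ^ (A + 4) + 1)
    (hlQ0 : 0 ≤ lQ) (hlQ : lQ ≤ L) (hsx0 : 0 ≤ sx) (hsx : sx * sx = X)
    (hQ0 : 0 ≤ Q) (hQ : Q ≤ sx / L ^ (3 * A + 18)) (hC4 : 0 ≤ C4)
    (hS : S = C1 * X / L ^ (3 * A + 8)) (hC1 : 0 ≤ C1)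
    (hP : P = C4 * X / L ^ (A + 2)) (h5 : L ^ 3 ≤ C5 * X / L ^ A) (h6 : L ^ 4 ≤ C6 * X / L ^ A)
    (h7 : L * sx ≤ C7 * X / L ^ A) :
    J ^ 2 * S + 2 * (L * (3 * h * (1 + lQ) ^ 2 + Q)) + 2 * (1 + lQ) ^ 2 * (2 * lQ * L + P)
      + Q * (2 * sx * L) ≤ (C1 + 24 + 24 * C5 + 2 * C7 + 16 * C6 + 8 * C4 + 2) * X / L ^ A := by
  have hL0 : 0 < L := by linarith
  have hLA : 0 < L ^ A := pow_pos hL0 A
  have e1 : J ^ 2 * S ≤ C1 * X / L ^ A := by
    have hS0 : 0 ≤ S := by rw [hS]; positivity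
    calc J ^ 2 * S ≤ (L ^ (A + 4)) ^ 2 * S := by gcongr
      _ = C1 * X / L ^ A := by
          rw [hS]
          have : L ^ (3 * A + 8) = (L ^ (A + 4)) ^ 2 * L ^ A := by ring
          rw [this]
          field_simp
  have e2 : (1 + lQ) ^ 2 ≤ 4 * L ^ 2 := by nlinarith
  have hxA : X / L ^ (A + 4) * L ^ 3 ≤ X / L ^ A := by
    have h1 : X / L ^ (A + 4) * L ^ 3 = X / L ^ A * (1 / L) := by
      rw [pow_add]
      field_simp
    rw [h1]
    have h2 : 1 / L ≤ 1 := by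
      rw [div_le_one hL0]
      exact hL
    calc X / L ^ A * (1 / L) ≤ X / L ^ A * 1 := by
          apply mul_le_mul_of_nonneg_left h2 (by positivity)
      _ = X / L ^ A := mul_one _
  have hQsx : Q ≤ sx := by
    refine hQ.trans (div_le_self hsx0 (one_le_pow₀ hL))
  have hhb : h * (1 + lQ) ^ 2 ≤ (X / L ^ (A + 4) + 1) * (4 * L ^ 2) := by
    have h1 : h * (1 + lQ) ^ 2 ≤ (X / L ^ (A + 4) + 1) * (1 + lQ) ^ 2 := by gcongr
    have h2 : (X / L ^ (A + 4) + 1) * (1 + lQ) ^ 2 ≤ (X / L ^ (A + 4) + 1) * (4 * L ^ 2) := by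
      gcongr
    exact h1.trans h2
  have e3 : 2 * (L * (3 * h * (1 + lQ) ^ 2 + Q)) ≤
      24 * (X / L ^ A) + 24 * (C5 * X / L ^ A) + 2 * (C7 * X / L ^ A) := by
    have h1 : 2 * (L * (3 * h * (1 + lQ) ^ 2 + Q)) =
        6 * L * (h * (1 + lQ) ^ 2) + 2 * (L * Q) := by ring
    rw [h1]
    have h2 : 6 * L * (h * (1 + lQ) ^ 2) ≤ 6 * L * ((X / L ^ (A + 4) + 1) * (4 * L ^ 2)) := by
      apply mul_le_mul_of_nonneg_left hhb (by positivity)
    have h3 : 6 * L * ((X / L ^ (A + 4) + 1) * (4 * L ^ 2)) =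
        24 * (X / L ^ (A + 4) * L ^ 3) + 24 * L ^ 3 := by ring
    have h4 : L * Q ≤ L * sx := by
      apply mul_le_mul_of_nonneg_left hQsx hL0.le
    linarith
  have e4 : 2 * (1 + lQ) ^ 2 * (2 * lQ * L + P) ≤ 16 * (C6 * X / L ^ A) + 8 * (C4 * X / L ^ A) := by
    have hP0 : 0 ≤ P := by rw [hP]; positivity
    have h1 : 2 * lQ * L + P ≤ 2 * L ^ 2 + P := by nlinarith
    have h2 : 0 ≤ 2 * lQ * L + P := by positivity
    calc 2 * (1 + lQ) ^ 2 * (2 * lQ * L + P) ≤ 2 * (4 * L ^ 2) * (2 * L ^ 2 + P) := by gcongr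
      _ = 16 * L ^ 4 + 8 * (L ^ 2 * P) := by ring
      _ ≤ _ := by
          have h3 : L ^ 2 * P = C4 * X / L ^ A := by
            rw [hP, pow_add]
            field_simp
          rw [h3]
          linarith
  have e5 : Q * (2 * sx * L) ≤ 2 * (X / L ^ A) := by
    calc Q * (2 * sx * L) ≤ (sx / L ^ (3 * A + 18)) * (2 * sx * L) := by gcongr
      _ = 2 * (X / L ^ A) * (1 / L ^ (2 * A + 17)) := by
          rw [← hsx]
          have : L ^ (3 * A + 18) = L ^ (2 * A + 17) * L ^ A * L := by ring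
          rw [this]
          field_simp
      _ ≤ 2 * (X / L ^ A) * 1 := by
          apply mul_le_mul_of_nonneg_left _ (by positivity)
          rw [div_le_one (by positivity)]
          exact one_le_pow₀ hL
      _ = _ := mul_one _
  have e6 : (C1 + 24 + 24 * C5 + 2 * C7 + 16 * C6 + 8 * C4 + 2) * X / L ^ A =
      C1 * X / L ^ A + (24 * (X / L ^ A) + 24 * (C5 * X / L ^ A) + 2 * (C7 * X / L ^ A)) +
        (16 * (C6 * X / L ^ A) + 8 * (C4 * X / L ^ A)) + 2 * (X / L ^ A) := by ring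
  rw [e6]
  linarith

/-- Bombieri-Vinogradov at a good scale.

PROOF. `L = log x ≥ 1` (`one_le_log`). Put `h = ⌈x/L^(A+4)⌉₊` (`1 ≤ h`), `J = x/h ≤ L^(A+4)`
(`Nat.cast_div_le`, `h ≥ x/L^(A+4)`), `h ≤ x/L^(A+4) + 1`. `C1` from `sum_TT_good` with the exponent
`3A+8` (so the good parameter and the exponent of `Q` are `3A+18`), `S = C1 x/L^(3A+8)`; `C4` from
`hP (A+2)` (w.l.o.g. `C4 ≥ 0`), `P = C4 x/L^(A+2)`. `E q = FF h x P q`: nonnegative (all terms are),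
pointwise bound by `abs_thetaAP_sub_le`. For `Q ≤ √x/L^(3A+18) ≤ √x ≤ x`: `log Q ≤ L`,
`(1 + log Q)^2 ≤ 4 L^2`, and by `sum_FF_le` (grid points `u = jh`, `1 ≤ jh ≤ x`) the sum is
`≤ L^(2A+8) C1 x/L^(3A+8) + 2L (12 h L^2 + Q) + 8 L^2 (2 L^2 + P) + 2 Q √x L`
`≤ C1 x/L^A + 24 L^3 (x/L^(A+4) + 1) + 2 L √x + 16 L^4 + 8 C4 x/L^A + 2 x L/L^(3A+18)`,
every term is `≤ C x/L^A` (`exists_log_pow_mul_rpow_le'` with `θ = 0` and `θ = 1/2` for the terms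
`24 L^3`, `16 L^4`, `2 L √x`). -/
theorem bv_theta (hDy : DyadicBound) (hSW : SWBound) (hPnt : PntErr) (A : ℕ) :
    ∃ C : ℝ, 0 ≤ C ∧ ∀ x : ℕ, 3 ≤ x → Good (3 * A + 18) x →
      ∃ E : ℕ → ℝ, (∀ q, 0 ≤ E q) ∧
        (∀ q a t : ℕ, q ≠ 0 → a.Coprime q → t ≤ x →
          |thetaAP q a t - t / q.totient| ≤ E q) ∧
        ∀ Q : ℕ, (Q : ℝ) ≤ √(x : ℝ) / Real.log x ^ (3 * A + 18) →
          ∑ q ∈ Icc 1 Q, E q ≤ C * x / Real.log x ^ A := by
  obtain ⟨C1, hC1, hTT⟩ := sum_TT_good hDy hSW (3 * A + 8)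
  have e18 : 3 * A + 8 + 10 = 3 * A + 18 := by omega
  rw [e18] at hTT
  obtain ⟨C4', hPnt'⟩ := hPnt (A + 2)
  obtain ⟨C5, hC5, h5⟩ := exists_log_pow_mul_rpow_le' 3 A (θ := 0) (by norm_num)
  obtain ⟨C6, hC6, h6⟩ := exists_log_pow_mul_rpow_le' 4 A (θ := 0) (by norm_num)
  obtain ⟨C7, hC7, h7⟩ := exists_log_pow_mul_rpow_le' 1 A (θ := 1 / 2) (by norm_num)
  set C4 := max 0 C4' with hC4def
  have hC4 : 0 ≤ C4 := le_max_left _ _
  refine ⟨C1 + 24 + 24 * C5 + 2 * C7 + 16 * C6 + 8 * C4 + 2, by positivity, ?_⟩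
  intro x hx hgood
  have hx3 : (3 : ℝ) ≤ (x : ℝ) := by exact_mod_cast hx
  have hL : 1 ≤ Real.log x := one_le_log hx3
  have hL0 : 0 < Real.log x := by linarith
  have hX : (0 : ℝ) ≤ (x : ℝ) := Nat.cast_nonneg x
  set L := Real.log (x : ℝ) with hLdef
  set h : ℕ := ⌈(x : ℝ) / L ^ (A + 4)⌉₊ with hhdef
  have hh1 : 1 ≤ h := by
    rw [hhdef]
    apply Nat.one_le_iff_ne_zero.2
    apply (Nat.ceil_pos.2 _).ne'
    positivity
  have hh1' : (0 : ℝ) < (h : ℝ) := by exact_mod_cast hh1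
  have hhle : (h : ℝ) ≤ (x : ℝ) / L ^ (A + 4) + 1 := (Nat.ceil_lt_add_one (by positivity)).le
  have hhge : (x : ℝ) / L ^ (A + 4) ≤ (h : ℝ) := Nat.le_ceil _
  have hJ : ((x / h : ℕ) : ℝ) ≤ L ^ (A + 4) := by
    refine Nat.cast_div_le.trans ?_
    rw [div_le_iff₀ hh1']
    rw [div_le_iff₀ (by positivity)] at hhge
    linarith
  set P : ℝ := C4 * x / L ^ (A + 2) with hPdef
  have hP0 : 0 ≤ P := by positivity
  have hPb : ∀ y : ℕ, y ≤ x → |Chebyshev.psi y - y| ≤ P := by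
    intro y hy
    refine (hPnt' x hx3 y (by exact_mod_cast hy)).trans ?_
    rw [hPdef]
    apply div_le_div_of_nonneg_right _ (by positivity)
    apply mul_le_mul_of_nonneg_right (le_max_right _ _) hX
  refine ⟨FF h x P, D17_FF_nonneg hP0, ?_, ?_⟩
  · intro q a t hq ha ht
    exact abs_thetaAP_sub_le hq ha hh1 ht hPb
  · intro Q hQ
    have hsx0 : 0 ≤ √(x : ℝ) := Real.sqrt_nonneg _
    have hsx : √(x : ℝ) * √(x : ℝ) = x := Real.mul_self_sqrt hX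
    have hS0 : 0 ≤ C1 * x / L ^ (3 * A + 8) := by positivity
    have H : ∀ j : ℕ, 1 ≤ j → j ≤ x / h →
        ∑ q ∈ Icc 1 Q, TT q ((j * h : ℕ) : ℝ) ≤ C1 * x / L ^ (3 * A + 8) := by
      intro j hj1 hj2
      apply hTT x hx3 hgood Q hQ
      · have : 1 ≤ j * h := Nat.one_le_iff_ne_zero.2 (by positivity)
        exact_mod_cast this
      · have : j * h ≤ x := (Nat.mul_le_mul_right h hj2).trans (Nat.div_mul_le_self x h)
        exact_mod_cast this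
    refine (sum_FF_le hP0 hS0 H).trans ?_
    have hQsx : (Q : ℝ) ≤ √(x : ℝ) := hQ.trans (div_le_self hsx0 (one_le_pow₀ hL))
    have hsxx : √(x : ℝ) ≤ x := by
      have h1 : 1 ≤ √(x : ℝ) := by
        rw [Real.one_le_sqrt]
        linarith
      nlinarith
    have hlQ : Real.log Q ≤ L := by
      rcases Nat.eq_zero_or_pos Q with h0 | h0
      · rw [h0]
        simp only [Nat.cast_zero, Real.log_zero]
        exact hL0.le
      · exact Real.log_le_log (by exact_mod_cast h0) (hQsx.trans hsxx)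
    have h5' := h5 x hx3
    have h6' := h6 x hx3
    have h7' := h7 x hx3
    rw [Real.rpow_zero, mul_one] at h5' h6'
    rw [← Real.sqrt_eq_rpow, pow_one] at h7'
    exact D17_num A hL hX (Nat.cast_nonneg _) hJ hhle (Real.log_natCast_nonneg Q) hlQ hsx0 hsx
      (Nat.cast_nonneg _) hQ hC4 rfl hC1 hPdef h5' h6' h7'

end BVM
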