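import Pool.Agent.helper10.BV.D17
import Pool.Agent.helper31.BVM.Defs

/-!
# BVA-D18: `BVInput` from the three analytic inputs
-/

open Finset ArithmeticFunction

namespace BVM

theorem D18_theta_eq (y q a : ℕ) : theta y q a = thetaAP q a y := by
  unfold theta thetaAP
  refine Finset.sum_congr ?_ (fun _ _ => rfl)
  ext p
  simp only [Finset.mem_filter, Finset.mem_range, Finset.mem_Icc]
  constructor
  · rintro ⟨h1, h2, h3⟩
    exact ⟨⟨h2.one_lt.le, by omega⟩, h2, h3⟩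
  · rintro ⟨⟨_, h1⟩, h2, h3⟩
    exact ⟨by omega, h2, h3⟩

/-- Bombieri-Vinogradov at arbitrarily large scales. -/
theorem bvInput_of (hDy : DyadicBound) (hSW : SWBound) (hPnt : PntErr)
    (hG : ∀ B x₀ : ℕ, ∃ x : ℕ, x₀ ≤ x ∧ Good B x) : BVInput := by
  intro A
  obtain ⟨C, _, hC⟩ := bv_theta hDy hSW hPnt A
  refine ⟨3 * A + 18, C, fun x₀ => ?_⟩
  obtain ⟨x, hx, hgood⟩ := hG (3 * A + 18) (max x₀ 3)
  have hx0 : x₀ ≤ x := le_trans (le_max_left _ _) hx
  have hx3 : 3 ≤ x := le_trans (le_max_right _ _) hx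
  obtain ⟨E, _, hE, hsum⟩ := hC x hx3 hgood
  refine ⟨x, hx0, E, ?_, ?_⟩
  · intro y hy q hq a ha
    rw [D18_theta_eq]
    exact hE q a y (by omega) ha hy
  · refine hsum _ (Nat.floor_le ?_)
    have : (1:ℝ) ≤ x := by exact_mod_cast (by omega : 1 ≤ x)
    exact div_nonneg (Real.sqrt_nonneg _) (pow_nonneg (Real.log_nonneg this) _)

end BVM
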