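import Pool.Agent.helper10.BV.Defs3

/-!
# BVA-D3: the Riesz mean is an average of `ψ(y, χ)`
-/

open Finset ArithmeticFunction

namespace BVM

private theorem D3_parts (c : ℕ → ℂ) (N : ℕ) :
    ∑ n ∈ Icc 1 N, c n * ((N : ℂ) - n) = ∑ y ∈ range N, ∑ n ∈ Icc 1 y, c n := by
  induction N with
  | zero => simp
  | succ N ih =>
    rw [Finset.sum_range_succ, ← ih, Finset.sum_Icc_succ_top (by omega), sub_self, mul_zero,
      add_zero, ← Finset.sum_add_distrib]
    apply Finset.sum_congr rfl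
    intro n _
    push_cast
    ring

/-- If `‖ψ(y,χ)‖ ≤ K` for all natural `y ≤ u` then `‖R_χ(u)‖ ≤ K`.

PROOF. Let `N = ⌊u⌋₊ ≤ u`, `c_n = Λ(n) χ(n)`, `C(y) = psiChi χ y = ∑_{1≤n≤y} c_n`.
For `1 ≤ n ≤ N`: `rz (n/u) = 1 - n/u = (u - n)/u`. So `u R_χ(u) = ∑_{n≤N} c_n (u - n)
 = C(N) (u - N) + ∑_{1≤y<N} C(y)` (summation by parts; prove
`∑_{n ∈ Icc 1 N} c_n (N - n) = ∑_{y ∈ range N} C(y)` by induction on `N` as in D1, note `C(0)=0`).
Hence `u ‖R_χ(u)‖ ≤ K (u - N) + K (N - 1) ≤ K u` if `N ≥ 1` (and `K ≥ 0` by the case `y = 0`);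
if `N = 0` then `R_χ(u) = 0 ≤ K`. -/
theorem norm_rieszChi_le {q : ℕ} (χ : DirichletCharacter ℂ q) {u K : ℝ} (hu : 0 < u)
    (h : ∀ y : ℕ, (y : ℝ) ≤ u → ‖psiChi χ y‖ ≤ K) : ‖rieszChi χ u‖ ≤ K := by
  set N : ℕ := ⌊u⌋₊ with hN
  have hNu : (N : ℝ) ≤ u := Nat.floor_le hu.le
  have e1 : (u : ℂ) * rieszChi χ u = (∑ y ∈ range N, psiChi χ y) + ((u : ℂ) - N) * psiChi χ N := by
    have e2 : ∑ y ∈ range N, psiChi χ y = ∑ n ∈ Icc 1 N,
        (((vonMangoldt n : ℝ) : ℂ) * χ (n : ZMod q)) * ((N : ℂ) - n) :=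
      (D3_parts (fun n => ((vonMangoldt n : ℝ) : ℂ) * χ (n : ZMod q)) N).symm
    rw [e2, psiChi, Finset.mul_sum, ← Finset.sum_add_distrib, rieszChi, ← hN, Finset.mul_sum]
    apply Finset.sum_congr rfl
    intro n hn
    have hn2 : (n : ℝ) ≤ N := by exact_mod_cast (Finset.mem_Icc.1 hn).2
    have e3 : rz (n / u) = 1 - n / u := by
      unfold rz
      apply max_eq_right
      rw [sub_nonneg, div_le_one hu]
      linarith
    have hu' : (u : ℂ) ≠ 0 := by exact_mod_cast hu.ne'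
    rw [e3]
    push_cast
    field_simp
    ring
  have e4 : u * ‖rieszChi χ u‖ ≤ u * K := by
    have e5 : ‖(u : ℂ) * rieszChi χ u‖ = u * ‖rieszChi χ u‖ := by
      rw [norm_mul, Complex.norm_real, Real.norm_of_nonneg hu.le]
    rw [← e5, e1]
    have e6 : ‖∑ y ∈ range N, psiChi χ y‖ ≤ N * K := by
      refine (norm_sum_le_of_le _ (f := fun y => psiChi χ y) (n := fun _ => K) ?_).trans ?_
      · intro y hy
        apply h
        have : (y : ℝ) ≤ N := by exact_mod_cast (Finset.mem_range.1 hy).le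
        linarith
      · rw [Finset.sum_const, Finset.card_range, nsmul_eq_mul]
    have e7 : ‖((u : ℂ) - N) * psiChi χ N‖ ≤ (u - N) * K := by
      rw [norm_mul]
      have e8 : ‖(u : ℂ) - N‖ = u - N := by
        have e9 : (u : ℂ) - N = ((u - N : ℝ) : ℂ) := by push_cast; ring
        rw [e9, Complex.norm_real, Real.norm_of_nonneg (by linarith)]
      rw [e8]
      exact mul_le_mul_of_nonneg_left (h N hNu) (by linarith)
    calc _ ≤ _ := norm_add_le _ _
      _ ≤ N * K + (u - N) * K := add_le_add e6 e7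
      _ = u * K := by ring
  exact le_of_mul_le_mul_left e4 hu

end BVM
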