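import Pool.Agent.helper24.BV.Defs

/-!
# Project BVM, part A3: definitions

Everything is about natural numbers `t` (resp. real `u`) and a modulus `q ≥ 1`.
-/

open Finset ArithmeticFunction

namespace BVM

/-- The finite set of all characters modulo `q` (for `q ≠ 0`, see `mem_allChar`). -/
noncomputable def allChar (q : ℕ) : Finset (DirichletCharacter ℂ q) := by
  classical
  exact if h : (Set.univ : Set (DirichletCharacter ℂ q)).Finite then h.toFinset else ∅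

theorem mem_allChar {q : ℕ} (hq : q ≠ 0) (χ : DirichletCharacter ℂ q) : χ ∈ allChar q := by
  classical
  haveI : NeZero q := ⟨hq⟩
  have h : (Set.univ : Set (DirichletCharacter ℂ q)).Finite := Set.toFinite _
  simp [allChar, h]

open Classical in
/-- The characters modulo `q` different from the principal one. -/
noncomputable def nonPrin (q : ℕ) : Finset (DirichletCharacter ℂ q) :=
  (allChar q).filter (fun χ => χ ≠ 1)

theorem mem_nonPrin {q : ℕ} (hq : q ≠ 0) (χ : DirichletCharacter ℂ q) :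
    χ ∈ nonPrin q ↔ χ ≠ 1 := by
  classical
  simp [nonPrin, mem_allChar hq χ]

/-- `T_q(u) = (1/φ(q)) ∑_{χ ≠ χ₀ mod q} |R_χ(u)|`. -/
noncomputable def TT (q : ℕ) (u : ℝ) : ℝ :=
  (1 / (q.totient : ℝ)) * ∑ χ ∈ nonPrin q, ‖rieszChi χ u‖

/-- `S_d(u) = ∑_{ψ primitive mod d} |R_ψ(u)|`. -/
noncomputable def SS (d : ℕ) (u : ℝ) : ℝ := ∑ χ ∈ prim d, ‖rieszChi χ u‖

theorem TT_nonneg (q : ℕ) (u : ℝ) : 0 ≤ TT q u :=
  mul_nonneg (by positivity) (Finset.sum_nonneg fun _ _ => norm_nonneg _)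

theorem SS_nonneg (d : ℕ) (u : ℝ) : 0 ≤ SS d u :=
  Finset.sum_nonneg fun _ _ => norm_nonneg _

open Classical in
/-- `e_n = Λ(n) (1_{n ≡ a mod q} - 1_{(n,q)=1}/φ(q))`. -/
noncomputable def ee (q a n : ℕ) : ℝ :=
  vonMangoldt n * ((if n ≡ a [MOD q] then 1 else 0)
    - (if n.Coprime q then 1 / (q.totient : ℝ) else 0))

/-- `E(t) = ∑_{n ≤ t} e_n = ψ(t; q, a) - ψ(t, χ₀)/φ(q)`. -/
noncomputable def EE (q a t : ℕ) : ℝ := ∑ n ∈ Icc 1 t, ee q a n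

/-- `W(N) = N Δ(N; q, a) = ∑_{n ≤ N} e_n (N - n)`. -/
noncomputable def WW (q a N : ℕ) : ℝ := ∑ n ∈ Icc 1 N, ee q a n * ((N : ℝ) - n)

open Classical in
/-- `ψ(t; q, a)`. -/
noncomputable def psiAP (q a t : ℕ) : ℝ :=
  ∑ n ∈ (Icc 1 t).filter (fun n => n ≡ a [MOD q]), vonMangoldt n

open Classical in
/-- `θ(t; q, a)`. -/
noncomputable def thetaAP (q a t : ℕ) : ℝ :=
  ∑ p ∈ (Icc 1 t).filter (fun p => p.Prime ∧ p ≡ a [MOD q]), Real.log p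

open Classical in
/-- `ψ(t, χ₀)`, the sum over `(n, q) = 1`. -/
noncomputable def psiCop (q t : ℕ) : ℝ :=
  ∑ n ∈ (Icc 1 t).filter (fun n => n.Coprime q), vonMangoldt n

/-- Interface (A1), proved by helper24's part as `BVM.SW`. -/
def SWBound : Prop :=
  ∀ A B : ℕ, ∃ C : ℝ, ∀ x : ℝ, 3 ≤ x → Good B x → ∀ q : ℕ, 1 ≤ q → (q : ℝ) ≤ Real.log x ^ B →
    ∀ χ : DirichletCharacter ℂ q, χ.IsPrimitive → χ ≠ 1 → ∀ y : ℕ, (y : ℝ) ≤ x →
      ‖psiChi χ y‖ ≤ C * x / Real.log x ^ A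

/-- Interface (A1'), proved by helper24's part as `BVM.pnt_err`. -/
def PntErr : Prop :=
  ∀ A : ℕ, ∃ C : ℝ, ∀ x : ℝ, 3 ≤ x → ∀ y : ℕ, (y : ℝ) ≤ x →
    |Chebyshev.psi y - y| ≤ C * x / Real.log x ^ A

/-- Interface (A2), proved by helper73's part as `BVM.bvDyadic`. -/
def DyadicBound : Prop :=
  ∃ C : ℝ, ∀ (x : ℝ) (D : ℕ) (u : ℝ), 3 ≤ x → 1 ≤ D → (D : ℝ) ≤ √x → 0 < u → u ≤ x →
    ∑ q ∈ Ioc D (2 * D), ∑ χ ∈ prim q, ((q : ℝ) / q.totient) * ‖rieszChi χ u‖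
      ≤ C * Real.log x ^ 6 * (x + D * x ^ (19 / 20 : ℝ) + (D : ℝ) ^ 2 * √x)

/-- The oscillation bound `I_q` for a cell of length `h` below `x`. -/
noncomputable def Iq (h x q : ℕ) : ℝ :=
  Real.log x * (((h : ℝ) / q + 1) + (h : ℝ) / q.totient)

/-- The grid bound `G_q = J ∑_{j ≤ J} T_q(j h) + 2 I_q`, `J = x / h`. -/
noncomputable def GG (h x q : ℕ) : ℝ :=
  ((x / h : ℕ) : ℝ) * ∑ j ∈ Icc 1 (x / h), TT q ((j * h : ℕ) : ℝ) + 2 * Iq h x q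

end BVM
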